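import Mathlib
import Pool.Agent.H715R2.General

/-! # Pairs of nearby points of a minimal set -/

open Filter Topology Matrix

namespace Pool.Agent.W241.Lac

open H715R2

variable {d : ℕ}

/-- `h` and `κ (1 + X) h` lie in `M`, where `X` has zero diagonal -/
def Pr (M : Set (Matrix (Fin d) (Fin d) ℝ)) (κ : ℝ) (h : Matrix (Fin d) (Fin d) ℝ)
    (X : Fin d → Fin d → ℝ) : Prop :=
  h ∈ M ∧ (∀ i, X i i = 0) ∧ κ • ((1 + Matrix.of X) * h) ∈ M

/-- conjugation by a diagonal matrix -/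
noncomputable def cj (a : Fin d → ℝ) (X : Fin d → Fin d → ℝ) : Fin d → Fin d → ℝ :=
  fun i j => a i * X i j / a j

lemma cj_mul {a : Fin d → ℝ} (ha : ∀ i, 0 < a i) (X : Fin d → Fin d → ℝ) :
    (1 + Matrix.of (cj a X)) * diagonal a = diagonal a * (1 + Matrix.of X) := by
  rw [Matrix.add_mul, Matrix.mul_add, Matrix.one_mul, Matrix.mul_one]
  congr 1
  ext i j
  rw [Matrix.mul_diagonal, Matrix.diagonal_mul, Matrix.of_apply, Matrix.of_apply, cj]
  have := (ha j).ne'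
  field_simp

lemma Pr.act {M : Set (Matrix (Fin d) (Fin d) ℝ)} (hinv : H715R2.Inv M) {h : Matrix (Fin d) (Fin d) ℝ}
    {κ : ℝ} {X : Fin d → Fin d → ℝ} (hP : Pr M κ h X) {a : Fin d → ℝ}
    {γ : Matrix (Fin d) (Fin d) ℤ}
    (ha0 : ∀ i, 0 < a i) (ha1 : ∏ i, a i = 1) (hγ : IsUnit γ.det) :
    Pr M κ (diagonal a * h * zR γ) (cj a X) := by
  obtain ⟨h1, h2, h4⟩ := hP
  refine ⟨hinv h h1 a γ ha0 ha1 hγ, fun i => ?_, ?_⟩
  · rw [cj, h2 i, mul_zero, zero_div]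
  · have h5 := hinv _ h4 a γ ha0 ha1 hγ
    have h6 : diagonal a * (κ • ((1 + Matrix.of X) * h)) * zR γ
        = κ • ((1 + Matrix.of (cj a X)) * (diagonal a * h * zR γ)) := by
      rw [Matrix.mul_smul, Matrix.smul_mul, ← Matrix.mul_assoc (diagonal a), ← cj_mul ha0]
      simp only [Matrix.mul_assoc]
    rwa [h6] at h5

/-- small pairs at a point whose neighbours are not all on its orbit -/
lemma exists_small (hd : 0 < d) {V : ℝ} (hV : 0 < V) {M : Set (Matrix (Fin d) (Fin d) ℝ)}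
    (hMdet : ∀ h ∈ M, |h.det| = V) (hinv : H715R2.Inv M)
    {h₀ : Matrix (Fin d) (Fin d) ℝ} (hh₀ : h₀ ∈ M)
    (hnot : ¬ ∀ᶠ h in 𝓝[M] h₀, ∃ a : Fin d → ℝ, (∀ i, 0 < a i) ∧ ∏ i, a i = 1 ∧
      h = diagonal a * h₀) {ε : ℝ} (hε : 0 < ε) :
    ∃ (X : Fin d → Fin d → ℝ) (κ : ℝ), 0 < κ ∧ Pr M κ h₀ X ∧ X ≠ 0 ∧ ‖X‖ < ε := by
  classical
  have hdet : h₀.det ≠ 0 := by
    intro h0
    have := hMdet h₀ hh₀
    rw [h0, abs_zero] at this
    exact hV.ne this
  have hu : IsUnit h₀.det := isUnit_iff_ne_zero.2 hdet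
  have hqc : Continuous (fun h : Matrix (Fin d) (Fin d) ℝ => h * h₀⁻¹) :=
    continuous_id.matrix_mul continuous_const
  have hq1 : h₀ * h₀⁻¹ = 1 := Matrix.mul_nonsing_inv _ hu
  have hqent : ∀ j l, Tendsto (fun h : Matrix (Fin d) (Fin d) ℝ => (h * h₀⁻¹) j l) (𝓝 h₀)
      (𝓝 ((1 : Matrix (Fin d) (Fin d) ℝ) j l)) := by
    intro j l
    have h1 := ((continuous_apply_apply j l).comp hqc).tendsto h₀
    have h2 : (h₀ * h₀⁻¹) j l = (1 : Matrix (Fin d) (Fin d) ℝ) j l := by rw [hq1]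
    rw [← h2]
    exact h1
  have hpos : ∀ᶠ h in 𝓝 h₀, ∀ j, 0 < (h * h₀⁻¹) j j := by
    refine Filter.eventually_all.2 fun j => ?_
    have h1 := hqent j j
    rw [Matrix.one_apply_eq] at h1
    exact h1.eventually (lt_mem_nhds one_pos)
  have hoff : Tendsto (fun h : Matrix (Fin d) (Fin d) ℝ => offd (h * h₀⁻¹)) (𝓝 h₀) (𝓝 0) := by
    rw [tendsto_pi_nhds]
    intro j
    rw [tendsto_pi_nhds]
    intro l
    by_cases hjl : j = l
    · simp only [offd, if_pos hjl]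
      exact tendsto_const_nhds
    · simp only [offd, if_neg hjl]
      have h1 := (hqent j l).div (hqent j j) (by rw [Matrix.one_apply_eq]; exact one_ne_zero)
      rw [Matrix.one_apply_ne hjl, zero_div] at h1
      exact h1
  have hnorm : ∀ᶠ h in 𝓝 h₀, ‖offd (h * h₀⁻¹)‖ < ε := by
    have h1 := hoff.norm
    rw [norm_zero] at h1
    exact h1.eventually (gt_mem_nhds hε)
  have hfr : ∃ᶠ h in 𝓝[M] h₀, ¬ ∃ a : Fin d → ℝ, (∀ i, 0 < a i) ∧ ∏ i, a i = 1 ∧
      h = diagonal a * h₀ := Filter.not_eventually.1 hnot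
  have hev1 : ∀ᶠ h : Matrix (Fin d) (Fin d) ℝ in 𝓝[M] h₀, (∀ j, 0 < (h * h₀⁻¹) j j) ∧
      ‖offd (h * h₀⁻¹)‖ < ε := (hpos.and hnorm).filter_mono nhdsWithin_le_nhds
  have hev2 : ∀ᶠ h in 𝓝[M] h₀, h ∈ M := self_mem_nhdsWithin
  obtain ⟨h, hh1, ⟨hh2, hh3⟩, hhM⟩ := (hfr.and_eventually (hev1.and hev2)).exists
  set q : Matrix (Fin d) (Fin d) ℝ := h * h₀⁻¹ with hq
  have hqh : q * h₀ = h := by
    rw [hq, Matrix.mul_assoc, Matrix.nonsing_inv_mul _ hu, Matrix.mul_one]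
  set X := offd q with hX
  have hqX : q = diagonal (fun j => q j j) * (1 + Matrix.of X) := by
    ext i j
    rw [Matrix.diagonal_mul, Matrix.add_apply, Matrix.of_apply, hX, offd]
    by_cases hij : i = j
    · rw [hij]; simp
    · rw [if_neg hij, Matrix.one_apply_ne hij, zero_add]
      have := (hh2 i).ne'
      field_simp
  set P : ℝ := ∏ j, q j j with hP
  have hP0 : 0 < P := Finset.prod_pos fun j _ => hh2 j
  set κ : ℝ := P ^ ((1 : ℝ) / d) with hκ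
  have hκ0 : 0 < κ := Real.rpow_pos_of_pos hP0 _
  have hdR : (0 : ℝ) < d := by exact_mod_cast hd
  have hκd : κ ^ d = P := by
    rw [hκ, ← Real.rpow_natCast, ← Real.rpow_mul hP0.le, one_div, inv_mul_cancel₀ hdR.ne',
      Real.rpow_one]
  refine ⟨X, κ, hκ0, ⟨hh₀, fun i => ?_, ?_⟩, fun h0 => ?_, hh3⟩
  · rw [hX, offd, if_pos rfl]
  rotate_left
  · apply hh1
    refine ⟨fun j => q j j, hh2, ?_, ?_⟩
    · have h1 := hMdet h hhM
      rw [← hqh, det_mul, abs_mul, hMdet h₀ hh₀] at h1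
      have h2 : |q.det| = 1 := by
        have := mul_right_cancel₀ hV.ne' (h1.trans (one_mul V).symm)
        exact this
      rw [hqX, h0, det_mul, det_diagonal] at h2
      have h3 : (1 + Matrix.of (0 : Fin d → Fin d → ℝ) : Matrix (Fin d) (Fin d) ℝ) = 1 := by
        ext i j; simp
      rw [h3, det_one, mul_one] at h2
      rw [abs_of_pos (Finset.prod_pos fun j _ => hh2 j)] at h2
      exact h2
    · have h3 : (1 + Matrix.of (0 : Fin d → Fin d → ℝ) : Matrix (Fin d) (Fin d) ℝ) = 1 := by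
        ext i j; simp
      have h4 : q = diagonal (fun j => q j j) := by
        have h5 := hqX
        rw [h0, h3, Matrix.mul_one] at h5
        exact h5
      rw [← h4, hqh]
  · have h1 := hinv h hhM (fun j => κ / q j j) 1 (fun j => div_pos hκ0 (hh2 j)) (by
      rw [Finset.prod_div_distrib, Finset.prod_const, Finset.card_univ, Fintype.card_fin, hκd]
      exact div_self hP0.ne') (by simp)
    have h2 : diagonal (fun j => κ / q j j) * h * zR 1 = κ • ((1 + Matrix.of X) * h₀) := by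
      rw [zR_one, Matrix.mul_one, ← hqh, ← Matrix.mul_assoc]
      have h3 : diagonal (fun j => κ / q j j) * q = κ • (1 + Matrix.of X) := by
        have h5 : diagonal (fun j => κ / q j j) * q =
            diagonal (fun j => κ / q j j) * (diagonal (fun j => q j j) * (1 + Matrix.of X)) :=
          congrArg (fun Q => diagonal (fun j => κ / q j j) * Q) hqX
        rw [h5, ← Matrix.mul_assoc, Matrix.diagonal_mul_diagonal]
        have h4 : (fun i => κ / q i i * q i i) = fun _ => κ := by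
          funext i
          exact div_mul_cancel₀ _ (hh2 i).ne'
        rw [h4]
        ext i j
        rw [Matrix.diagonal_mul, Matrix.smul_apply, smul_eq_mul]
      rw [h3, Matrix.smul_mul]
    rwa [h2] at h1

/-- every point of a minimal set returns to an open set in bounded time -/
lemma exists_return (hd : 0 < d) {V ν : ℝ} (hV : 0 < V) (hν : 0 < ν)
    {M : Set (Matrix (Fin d) (Fin d) ℝ)} (hMdet : ∀ h ∈ M, |h.det| = V)
    (hMnu : ∀ h ∈ M, HasNu h ν) (hM : IsClosed M) (hinv : H715R2.Inv M)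
    (hmin : ∀ Y ⊆ M, IsClosed Y → Y.Nonempty → H715R2.Inv Y → Y = M)
    {h₀ : Matrix (Fin d) (Fin d) ℝ} (hh₀ : h₀ ∈ M) {U : Set (Matrix (Fin d) (Fin d) ℝ)}
    (hU : IsOpen U) (hh₀U : h₀ ∈ U) :
    ∃ B : ℝ, 1 ≤ B ∧ ∀ h ∈ M, ∃ (a : Fin d → ℝ) (γ : Matrix (Fin d) (Fin d) ℤ),
      (∀ i, 0 < a i) ∧ ∏ i, a i = 1 ∧ IsUnit γ.det ∧ (∀ i, a i ≤ B ∧ B⁻¹ ≤ a i) ∧
      diagonal a * h * zR γ ∈ U := by
  classical
  -- every orbit meets `U`
  have hmeet : ∀ h ∈ M, ∃ (a : Fin d → ℝ) (γ : Matrix (Fin d) (Fin d) ℤ),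
      (∀ i, 0 < a i) ∧ ∏ i, a i = 1 ∧ IsUnit γ.det ∧ diagonal a * h * zR γ ∈ U := by
    set Y : Set (Matrix (Fin d) (Fin d) ℝ) := {h | h ∈ M ∧ ∀ (a : Fin d → ℝ)
      (γ : Matrix (Fin d) (Fin d) ℤ), (∀ i, 0 < a i) → ∏ i, a i = 1 → IsUnit γ.det →
        diagonal a * h * zR γ ∉ U} with hY
    have hYc : IsClosed Y := by
      have h1 : Y = M ∩ ⋂ (a : Fin d → ℝ), ⋂ (γ : Matrix (Fin d) (Fin d) ℤ),
          ⋂ (_ : ∀ i, 0 < a i), ⋂ (_ : ∏ i, a i = 1), ⋂ (_ : IsUnit γ.det),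
            (fun h : Matrix (Fin d) (Fin d) ℝ => diagonal a * h * zR γ) ⁻¹' Uᶜ := by
        ext h
        simp [hY]
      rw [h1]
      refine hM.inter ?_
      refine isClosed_iInter fun a => isClosed_iInter fun γ => isClosed_iInter fun _ =>
        isClosed_iInter fun _ => isClosed_iInter fun _ => hU.isClosed_compl.preimage ?_
      exact (continuous_const.matrix_mul continuous_id).matrix_mul continuous_const
    have hYi : H715R2.Inv Y := by
      intro h hh b δ hb0 hb hδ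
      refine ⟨hinv h hh.1 b δ hb0 hb hδ, fun a γ ha0 ha hγ => ?_⟩
      have h1 := hh.2 (fun i => a i * b i) (δ * γ) (fun i => mul_pos (ha0 i) (hb0 i))
        (by rw [Finset.prod_mul_distrib, ha, hb, one_mul]) (by rw [det_mul]; exact hδ.mul hγ)
      rw [zR_mul, ← diagonal_mul_diagonal] at h1
      simp only [Matrix.mul_assoc] at h1 ⊢
      exact h1
    have hYne : ¬ Y.Nonempty := by
      intro hne
      have h1 := hmin Y (fun h hh => hh.1) hYc hne hYi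
      have h2 : h₀ ∈ Y := by rw [h1]; exact hh₀
      have h3 := h2.2 (fun _ => 1) 1 (fun _ => one_pos) (by simp) (by simp)
      have h4 : diagonal (fun _ : Fin d => (1 : ℝ)) = 1 := diagonal_one
      rw [h4, Matrix.one_mul, zR_one, Matrix.mul_one] at h3
      exact h3 hh₀U
    intro h hh
    have h1 : h ∉ Y := fun hhY => hYne ⟨h, hhY⟩
    simp only [hY, Set.mem_ofPred_eq, not_and, not_forall, not_not] at h1
    obtain ⟨a, γ, ha0, ha, hγ, hmem⟩ := h1 hh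
    exact ⟨a, γ, ha0, ha, hγ, hmem⟩
  obtain ⟨R, hR⟩ := exists_bound hd V ν hV hν
  set 𝒦 : Set (Matrix (Fin d) (Fin d) ℝ) := M ∩ {h | ∀ i j, |h i j| ≤ R} with h𝒦
  have hcpt : IsCompact 𝒦 := (isCompact_box R).inter_left hM
  let O : ℕ → Set (Matrix (Fin d) (Fin d) ℝ) := fun n =>
    ⋃ (a : Fin d → ℝ), ⋃ (γ : Matrix (Fin d) (Fin d) ℤ), ⋃ (_ : ∀ i, 0 < a i),
      ⋃ (_ : ∏ i, a i = 1), ⋃ (_ : IsUnit γ.det),
      ⋃ (_ : ∀ i, a i ≤ (n + 1 : ℝ) ∧ (n + 1 : ℝ)⁻¹ ≤ a i),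
        (fun h : Matrix (Fin d) (Fin d) ℝ => diagonal a * h * zR γ) ⁻¹' U
  have hmem : ∀ n h, h ∈ O n ↔ ∃ (a : Fin d → ℝ) (γ : Matrix (Fin d) (Fin d) ℤ),
      (∀ i, 0 < a i) ∧ ∏ i, a i = 1 ∧ IsUnit γ.det ∧
      (∀ i, a i ≤ (n + 1 : ℝ) ∧ (n + 1 : ℝ)⁻¹ ≤ a i) ∧ diagonal a * h * zR γ ∈ U := by
    intro n h
    simp only [O, Set.mem_iUnion, Set.mem_preimage, exists_prop]
  have hOo : ∀ n, IsOpen (O n) := by
    intro n
    refine isOpen_iUnion fun a => isOpen_iUnion fun γ => isOpen_iUnion fun _ =>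
      isOpen_iUnion fun _ => isOpen_iUnion fun _ => isOpen_iUnion fun _ => hU.preimage ?_
    exact (continuous_const.matrix_mul continuous_id).matrix_mul continuous_const
  have hOm : Monotone O := by
    intro n n' hn h hh
    rw [hmem] at hh ⊢
    obtain ⟨a, γ, h1, h2, h3, h4, h5⟩ := hh
    have hn' : (n : ℝ) ≤ n' := by exact_mod_cast hn
    have hn0 : (0 : ℝ) ≤ n := Nat.cast_nonneg n
    refine ⟨a, γ, h1, h2, h3, fun i => ⟨(h4 i).1.trans (by linarith), ?_⟩, h5⟩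
    exact le_trans (inv_anti₀ (by linarith) (by linarith)) (h4 i).2
  obtain ⟨n, hn⟩ := hcpt.elim_directed_cover O hOo (by
    intro h hh
    obtain ⟨a, γ, h1, h2, h3, h4⟩ := hmeet h hh.1
    rw [Set.mem_iUnion]
    obtain ⟨n, hn⟩ := exists_nat_ge (∑ i, (a i + (a i)⁻¹))
    refine ⟨n, (hmem n h).2 ⟨a, γ, h1, h2, h3, fun i => ?_, h4⟩⟩
    have h5 : a i + (a i)⁻¹ ≤ n := by
      refine le_trans ?_ hn
      exact Finset.single_le_sum (f := fun i => a i + (a i)⁻¹)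
        (fun i _ => (add_pos (h1 i) (inv_pos.2 (h1 i))).le) (Finset.mem_univ i)
    have h6 := h1 i
    have h7 := inv_pos.2 (h1 i)
    refine ⟨by linarith, ?_⟩
    rw [inv_le_comm₀ (by linarith) h6]
    linarith) hOm.directed_le
  have hn0 : (0 : ℝ) ≤ n := Nat.cast_nonneg n
  refine ⟨n + 1, by linarith, fun h hh => ?_⟩
  obtain ⟨γ₀, hγ₀, hγ₀R⟩ := hR h (hMdet h hh) (hMnu h hh)
  have h1 : h * zR γ₀ ∈ 𝒦 := by
    refine ⟨?_, hγ₀R⟩
    have h2 := hinv h hh (fun _ => 1) γ₀ (fun _ => one_pos) (by simp) hγ₀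
    have h3 : diagonal (fun _ : Fin d => (1 : ℝ)) = 1 := diagonal_one
    rwa [h3, Matrix.one_mul] at h2
  obtain ⟨a, γ, h2, h3, h4, h5, h6⟩ := (hmem n _).1 (hn h1)
  refine ⟨a, γ₀ * γ, h2, h3, ?_, h5, ?_⟩
  · rw [det_mul]; exact hγ₀.mul h4
  · rw [zR_mul]
    simp only [Matrix.mul_assoc] at h6 ⊢
    exact h6

end Pool.Agent.W241.Lac
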