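import Mathlib
import Pool.Agent.W241.LacPairs

/-! # Two points of a minimal set which differ by an elementary unipotent matrix -/

open Filter Topology Matrix

namespace Pool.Agent.W241.Lac

open H715R2

variable {d : ℕ}

lemma abs_le_norm (Y : Fin d → Fin d → ℝ) (i j : Fin d) : |Y i j| ≤ ‖Y‖ := by
  have h3 := norm_le_pi_norm (Y i) j
  have h4 := norm_le_pi_norm Y i
  rw [Real.norm_eq_abs] at h3
  exact h3.trans h4

lemma norm_le_of_abs_le {Y : Fin d → Fin d → ℝ} {C : ℝ} (hC : 0 ≤ C) (hY : ∀ i j, |Y i j| ≤ C) :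
    ‖Y‖ ≤ C := by
  refine (pi_norm_le_iff_of_nonneg hC).2 fun i => (pi_norm_le_iff_of_nonneg hC).2 fun j => ?_
  rw [Real.norm_eq_abs]; exact hY i j

/-- a centred injective weight -/
noncomputable def th (d : ℕ) : Fin d → ℝ := fun i => (i : ℝ) - (∑ j : Fin d, (j : ℝ)) / d

lemma th_inj : Function.Injective (th d) := by
  intro i j hij
  simp only [th] at hij
  have : (i : ℝ) = (j : ℝ) := by linarith
  exact Fin.ext (by exact_mod_cast this)

lemma th_sum (hd : 0 < d) : ∑ i, th d i = 0 := by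
  have hdR : (d : ℝ) ≠ 0 := by exact_mod_cast hd.ne'
  simp only [th]
  rw [Finset.sum_sub_distrib, Finset.sum_const, Finset.card_univ, Fintype.card_fin, nsmul_eq_mul,
    mul_div_cancel₀ _ hdR, sub_self]

lemma exp_pos_prod {θ : Fin d → ℝ} (hθ : ∑ i, θ i = 0) (t : ℝ) :
    (∀ i, 0 < Real.exp (t * θ i)) ∧ ∏ i, Real.exp (t * θ i) = 1 := by
  refine ⟨fun i => Real.exp_pos _, ?_⟩
  rw [← Real.exp_sum, ← Finset.mul_sum, hθ, mul_zero, Real.exp_zero]

lemma cj_exp (θ : Fin d → ℝ) (t : ℝ) (X : Fin d → Fin d → ℝ) (i j : Fin d) :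
    cj (fun k => Real.exp (t * θ k)) X i j = Real.exp (t * (θ i - θ j)) * X i j := by
  simp only [cj]
  rw [mul_sub, Real.exp_sub]
  ring

lemma tendsto_unip {Zs : ℕ → Fin d → Fin d → ℝ} {Y : Fin d → Fin d → ℝ}
    {hs : ℕ → Matrix (Fin d) (Fin d) ℝ} {h' : Matrix (Fin d) (Fin d) ℝ} {κs : ℕ → ℝ}
    (hZ : Tendsto Zs atTop (𝓝 Y)) (hh : Tendsto hs atTop (𝓝 h')) (hκ : Tendsto κs atTop (𝓝 1)) :
    Tendsto (fun n => κs n • ((1 + Matrix.of (Zs n)) * hs n)) atTop
      (𝓝 ((1 : ℝ) • ((1 + Matrix.of Y) * h'))) := by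
  have hof0 : Tendsto (fun n => (Matrix.of (Zs n) : Matrix (Fin d) (Fin d) ℝ)) atTop
      (𝓝 (Matrix.of Y)) := hZ
  have hof : Tendsto (fun n => (1 + Matrix.of (Zs n) : Matrix (Fin d) (Fin d) ℝ)) atTop
      (𝓝 (1 + Matrix.of Y)) := hof0.const_add 1
  have h1 : Tendsto (fun n => (1 + Matrix.of (Zs n) : Matrix (Fin d) (Fin d) ℝ) * hs n) atTop
      (𝓝 ((1 + Matrix.of Y) * h')) := hof.mul hh
  exact hκ.smul h1

/-- the expanding part is one at a suitable time -/
lemma exists_time {θ : Fin d → ℝ} {X : Fin d → Fin d → ℝ} (hX : ‖X‖ < 1) {i j : Fin d}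
    (hij : θ j < θ i) (hXij : X i j ≠ 0) :
    ∃ t : ℝ, 0 ≤ t ∧
      ‖(fun k l => if θ l < θ k then Real.exp (t * (θ k - θ l)) * X k l else 0 :
        Fin d → Fin d → ℝ)‖ = 1 := by
  classical
  set f : ℝ → ℝ := fun t => ‖(fun k l => if θ l < θ k then Real.exp (t * (θ k - θ l)) * X k l else 0 :
        Fin d → Fin d → ℝ)‖ with hf
  have hcont : Continuous f := by
    refine continuous_norm.comp ?_
    refine continuous_pi fun k => continuous_pi fun l => ?_
    by_cases hkl : θ l < θ k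
    · simp only [if_pos hkl]
      fun_prop
    · simp only [if_neg hkl]
      exact continuous_const
  have h0 : f 0 ≤ 1 := by
    refine le_trans (norm_le_of_abs_le (norm_nonneg X) fun k l => ?_) hX.le
    by_cases hkl : θ l < θ k
    · simp only [if_pos hkl, zero_mul, Real.exp_zero, one_mul]
      exact abs_le_norm X k l
    · simp only [if_neg hkl, abs_zero]
      exact norm_nonneg X
  have hpos : 0 < θ i - θ j := sub_pos.2 hij
  have h1 : Tendsto (fun t : ℝ => Real.exp (t * (θ i - θ j)) * |X i j|) atTop atTop :=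
    (Real.tendsto_exp_atTop.comp (tendsto_id.atTop_mul_const hpos)).atTop_mul_const
      (abs_pos.2 hXij)
  obtain ⟨T, hT0, hT⟩ := ((eventually_ge_atTop (0 : ℝ)).and (h1.eventually_ge_atTop 1)).exists
  have h2 : 1 ≤ f T := by
    refine hT.trans ?_
    have h3 := abs_le_norm (fun k l => if θ l < θ k then Real.exp (T * (θ k - θ l)) * X k l else 0 :
        Fin d → Fin d → ℝ) i j
    simp only [if_pos hij, abs_mul, abs_of_pos (Real.exp_pos _)] at h3
    exact h3
  obtain ⟨t, ht, hte⟩ := intermediate_value_Icc hT0 hcont.continuousOn ⟨h0, h2⟩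
  exact ⟨t, ht.1, hte⟩

/-- **Step 1.** A pair of points which differ by a unipotent matrix. -/
theorem exists_upper (hd : 0 < d) {V ν : ℝ} (hV : 0 < V) (hν : 0 < ν)
    {M : Set (Matrix (Fin d) (Fin d) ℝ)} (hMdet : ∀ h ∈ M, |h.det| = V)
    (hMnu : ∀ h ∈ M, HasNu h ν) (hM : IsClosed M) (hinv : H715R2.Inv M)
    {h₀ : Matrix (Fin d) (Fin d) ℝ} (hh₀ : h₀ ∈ M)
    (hnot : ¬ ∀ᶠ h in 𝓝[M] h₀, ∃ a : Fin d → ℝ, (∀ i, 0 < a i) ∧ ∏ i, a i = 1 ∧
      h = diagonal a * h₀) :
    ∃ θ : Fin d → ℝ, Function.Injective θ ∧ ∃ (h : Matrix (Fin d) (Fin d) ℝ)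
      (X : Fin d → Fin d → ℝ), X ≠ 0 ∧ (∀ i j, θ i ≤ θ j → X i j = 0) ∧ Pr M 1 h X := by
  classical
  have hdR : (0 : ℝ) < d := by exact_mod_cast hd
  have hsm : ∀ n : ℕ, ∃ (X : Fin d → Fin d → ℝ) (κ : ℝ), 0 < κ ∧ Pr M κ h₀ X ∧ X ≠ 0 ∧
      ‖X‖ < 1 / ((n : ℝ) + 1) := fun n =>
    exists_small hd hV hMdet hinv hh₀ hnot (by positivity)
  choose X κ hκ0 hP hX0 hXn using hsm
  -- the sign of the weight
  obtain ⟨θ, hθinj, hθsum, hθfr⟩ : ∃ θ : Fin d → ℝ, Function.Injective θ ∧ ∑ i, θ i = 0 ∧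
      ∃ᶠ n in atTop, ∃ i j, θ j < θ i ∧ X n i j ≠ 0 := by
    by_cases hfr : ∃ᶠ n in atTop, ∃ i j, th d j < th d i ∧ X n i j ≠ 0
    · exact ⟨th d, th_inj, th_sum hd, hfr⟩
    · refine ⟨fun i => - th d i, fun i j hij => th_inj (neg_injective hij), ?_, ?_⟩
      · rw [Finset.sum_neg_distrib, th_sum hd, neg_zero]
      · refine (not_frequently.1 hfr).frequently.mono fun n hn => ?_
        push Not at hn
        obtain ⟨i, j, hij⟩ : ∃ i j, X n i j ≠ 0 := by
          by_contra hcon
          push Not at hcon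
          exact hX0 n (funext fun i => funext fun j => hcon i j)
        refine ⟨i, j, ?_, hij⟩
        have hne : i ≠ j := fun h => hij (by rw [h]; exact (hP n).2.1 j)
        have h1 : ¬ th d j < th d i := fun h => hij (hn i j h)
        have h2 : th d i ≠ th d j := fun h => hne (th_inj h)
        have h3 : th d i < th d j := lt_of_le_of_ne (not_lt.1 h1) h2
        linarith
  obtain ⟨σ, hσ, hσ2⟩ := extraction_of_frequently_atTop hθfr
  have hXlt : ∀ n, ‖X n‖ < 1 := by
    intro n
    refine (hXn n).trans_le ?_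
    rw [div_le_one (by positivity)]
    have : (0 : ℝ) ≤ n := Nat.cast_nonneg n
    linarith
  have htime : ∀ n, ∃ t : ℝ, 0 ≤ t ∧
      ‖(fun k l => if θ l < θ k then Real.exp (t * (θ k - θ l)) * X (σ n) k l else 0 :
        Fin d → Fin d → ℝ)‖ = 1 := by
    intro n
    obtain ⟨i, j, hij, hXij⟩ := hσ2 n
    exact exists_time (hXlt _) hij hXij
  choose t ht0 ht1 using htime
  obtain ⟨R, hR⟩ := exists_bound hd V ν hV hν
  set a : ℕ → Fin d → ℝ := fun n k => Real.exp (t n * θ k) with ha
  have ha' : ∀ n, (∀ i, 0 < a n i) ∧ ∏ i, a n i = 1 := fun n => exp_pos_prod hθsum (t n)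
  have hγ : ∀ n, ∃ γ : Matrix (Fin d) (Fin d) ℤ, IsUnit γ.det ∧
      ∀ i j, |(diagonal (a n) * h₀ * zR γ) i j| ≤ R := by
    intro n
    have h1 : diagonal (a n) * h₀ ∈ M := by
      have := hinv h₀ hh₀ (a n) 1 (ha' n).1 (ha' n).2 (by simp)
      rwa [zR_one, Matrix.mul_one] at this
    exact hR _ (hMdet _ h1) (hMnu _ h1)
  choose γ hγu hγR using hγ
  set Z : ℕ → Fin d → Fin d → ℝ := fun n => cj (a n) (X (σ n)) with hZ
  have hPn : ∀ n, Pr M (κ (σ n)) (diagonal (a n) * h₀ * zR (γ n)) (Z n) := fun n =>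
    (hP (σ n)).act hinv (ha' n).1 (ha' n).2 (hγu n)
  have hZent : ∀ n i j, Z n i j = Real.exp (t n * (θ i - θ j)) * X (σ n) i j := fun n i j =>
    cj_exp θ (t n) (X (σ n)) i j
  have hcontr : ∀ n i j, θ i ≤ θ j → |Z n i j| ≤ ‖X (σ n)‖ := by
    intro n i j hij
    rw [hZent, abs_mul, abs_of_pos (Real.exp_pos _)]
    have h1 : Real.exp (t n * (θ i - θ j)) ≤ 1 := by
      rw [Real.exp_le_one_iff]
      exact mul_nonpos_of_nonneg_of_nonpos (ht0 n) (by linarith)
    have h2 := abs_le_norm (X (σ n)) i j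
    have h3 := abs_nonneg (X (σ n) i j)
    calc Real.exp (t n * (θ i - θ j)) * |X (σ n) i j| ≤ 1 * |X (σ n) i j| :=
          mul_le_mul_of_nonneg_right h1 h3
      _ ≤ ‖X (σ n)‖ := by rw [one_mul]; exact h2
  have hZb : ∀ n i j, |Z n i j| ≤ 1 := by
    intro n i j
    by_cases hij : θ j < θ i
    · have h1 := abs_le_norm (fun k l => if θ l < θ k then Real.exp (t n * (θ k - θ l)) * X (σ n) k l
        else 0 : Fin d → Fin d → ℝ) i j
      rw [ht1 n] at h1
      simp only [if_pos hij] at h1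
      rw [hZent]
      exact h1
    · exact (hcontr n i j (not_lt.1 hij)).trans (hXlt _).le
  -- convergent subsequences
  obtain ⟨h', -, φ, hφ, hlim⟩ := (isCompact_box (d := d) R).tendsto_subseq hγR
  let ZM : ℕ → Matrix (Fin d) (Fin d) ℝ := fun n => Z (φ n)
  have hZM : ∀ n, ZM n ∈ {h : Matrix (Fin d) (Fin d) ℝ | ∀ i j, |h i j| ≤ 1} := fun n => hZb (φ n)
  obtain ⟨Y, -, ψ, hψ, hlimZ⟩ := (isCompact_box (d := d) 1).tendsto_subseq hZM
  have hlim' : Tendsto (fun n => diagonal (a (φ (ψ n))) * h₀ * zR (γ (φ (ψ n)))) atTop (𝓝 h') :=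
    hlim.comp hψ.tendsto_atTop
  have hlimZ' : Tendsto (fun n => (Z (φ (ψ n)) : Matrix (Fin d) (Fin d) ℝ)) atTop (𝓝 Y) := hlimZ
  have hent : ∀ i j, Tendsto (fun n => Z (φ (ψ n)) i j) atTop (𝓝 (Y i j)) := fun i j =>
    ((continuous_apply_apply i j).tendsto Y).comp hlimZ'
  have hidx : Tendsto (fun n => σ (φ (ψ n))) atTop atTop :=
    hσ.tendsto_atTop.comp (hφ.tendsto_atTop.comp hψ.tendsto_atTop)
  have hXto : Tendsto (fun n => ‖X n‖) atTop (𝓝 0) :=
    squeeze_zero (fun n => norm_nonneg _) (fun n => (hXn n).le) tendsto_one_div_add_atTop_nhds_zero_nat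
  have hYdown : ∀ i j, θ i ≤ θ j → Y i j = 0 := by
    intro i j hij
    refine tendsto_nhds_unique (hent i j) ?_
    refine squeeze_zero_norm (fun n => ?_) (hXto.comp hidx)
    rw [Real.norm_eq_abs]
    exact hcontr _ i j hij
  have hκto : Tendsto (fun n => κ n) atTop (𝓝 1) := by
    have hXto' : Tendsto X atTop (𝓝 0) := tendsto_zero_iff_norm_tendsto_zero.2 hXto
    have hdetc : Continuous (fun Y : Fin d → Fin d → ℝ =>
        |(1 + Matrix.of Y : Matrix (Fin d) (Fin d) ℝ).det|) := by
      refine continuous_abs.comp (Continuous.matrix_det ?_)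
      exact continuous_const.add continuous_id
    have h1 : Tendsto (fun n => |(1 + Matrix.of (X n) : Matrix (Fin d) (Fin d) ℝ).det|) atTop
        (𝓝 1) := by
      have h2 := (hdetc.tendsto 0).comp hXto'
      have h3 : (1 + Matrix.of (0 : Fin d → Fin d → ℝ) : Matrix (Fin d) (Fin d) ℝ) = 1 := by
        ext i j; simp
      rw [h3, det_one, abs_one] at h2
      exact h2
    have h2 : Tendsto (fun n => (|(1 + Matrix.of (X n) : Matrix (Fin d) (Fin d) ℝ).det|⁻¹)
        ^ ((1 : ℝ) / d)) atTop (𝓝 1) := by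
      have h3 := (h1.inv₀ one_ne_zero).rpow_const (p := (1 : ℝ) / d) (Or.inl (by norm_num))
      rwa [inv_one, Real.one_rpow] at h3
    refine h2.congr fun n => ?_
    have h3 : κ n ^ d * |(1 + Matrix.of (X n) : Matrix (Fin d) (Fin d) ℝ).det| = 1 := by
      have h4 := hMdet _ (hP n).2.2
      rw [Matrix.det_smul, Fintype.card_fin, det_mul, abs_mul, abs_mul, hMdet h₀ hh₀,
        abs_of_pos (pow_pos (hκ0 n) d), ← mul_assoc] at h4
      exact mul_right_cancel₀ hV.ne' (h4.trans (one_mul V).symm)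
    have h4 : |(1 + Matrix.of (X n) : Matrix (Fin d) (Fin d) ℝ).det|⁻¹ = κ n ^ d :=
      (eq_inv_of_mul_eq_one_left h3).symm
    rw [h4, ← Real.rpow_natCast, ← Real.rpow_mul (hκ0 n).le, one_div, mul_inv_cancel₀ hdR.ne',
      Real.rpow_one]
  refine ⟨θ, hθinj, h', Y, ?_, hYdown, ?_, fun i => hYdown i i le_rfl, ?_⟩
  · -- the limit is not zero
    intro hY0
    have hcont : Continuous (fun W : Fin d → Fin d → ℝ =>
        ‖(fun k l => if θ l < θ k then W k l else 0 : Fin d → Fin d → ℝ)‖) := by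
      refine continuous_norm.comp ?_
      refine continuous_pi fun k => continuous_pi fun l => ?_
      by_cases hkl : θ l < θ k
      · simp only [if_pos hkl]
        fun_prop
      · simp only [if_neg hkl]
        exact continuous_const
    have h1 : Tendsto (fun n => ‖(fun k l => if θ l < θ k then Z (φ (ψ n)) k l else 0 :
        Fin d → Fin d → ℝ)‖) atTop (𝓝 ‖(fun k l => if θ l < θ k then Y k l else 0 :
        Fin d → Fin d → ℝ)‖) := (hcont.tendsto Y).comp hlimZ'
    have h2 : (fun n => ‖(fun k l => if θ l < θ k then Z (φ (ψ n)) k l else 0 :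
        Fin d → Fin d → ℝ)‖) = fun _ => (1 : ℝ) := by
      funext n
      rw [← ht1 (φ (ψ n))]
      congr 1
      funext k l
      by_cases hkl : θ l < θ k
      · simp only [if_pos hkl, hZent]
      · simp only [if_neg hkl]
    rw [h2] at h1
    have h3 := tendsto_nhds_unique tendsto_const_nhds h1
    have h4 : (fun k l => if θ l < θ k then Y k l else 0 : Fin d → Fin d → ℝ) = 0 := by
      funext k l
      have : Y k l = 0 := congrFun (congrFun hY0 k) l
      simp [this]
    rw [h4, norm_zero] at h3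
    exact one_ne_zero h3
  · exact hM.mem_of_tendsto hlim' (Eventually.of_forall fun n => (hPn _).1)
  · exact hM.mem_of_tendsto (tendsto_unip (Y := Y) hlimZ' hlim' (hκto.comp hidx))
      (Eventually.of_forall fun n => (hPn _).2.2)

/-- **Step 2.** Two points of `M` which differ by an elementary unipotent matrix. -/
theorem exists_single (hd : 0 < d) {V ν : ℝ} (hV : 0 < V) (hν : 0 < ν)
    {M : Set (Matrix (Fin d) (Fin d) ℝ)} (hMdet : ∀ h ∈ M, |h.det| = V)
    (hMnu : ∀ h ∈ M, HasNu h ν) (hM : IsClosed M) (hinv : H715R2.Inv M)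
    (θ : Fin d → ℝ) :
    ∀ (N : ℕ) (h : Matrix (Fin d) (Fin d) ℝ) (X : Fin d → Fin d → ℝ), X ≠ 0 →
      (∀ i j, θ i ≤ θ j → X i j = 0) → Pr M 1 h X →
      (Finset.univ.filter (fun p : Fin d × Fin d => X p.1 p.2 ≠ 0)).card ≤ N →
      ∃ (h' : Matrix (Fin d) (Fin d) ℝ) (i j : Fin d) (s : ℝ), i ≠ j ∧ s ≠ 0 ∧
        Pr M 1 h' (fun k l => if k = i ∧ l = j then s else 0) := by
  classical
  have hdR : (0 : ℝ) < d := by exact_mod_cast hd
  intro N
  induction N with
  | zero =>
    intro h X hX0 _ _ hcard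
    exfalso
    rw [Nat.le_zero, Finset.card_eq_zero, Finset.filter_eq_empty_iff] at hcard
    apply hX0
    funext i j
    have := hcard (Finset.mem_univ (i, j))
    simpa using this
  | succ N ih =>
    intro h X hX0 hXup hP hcard
    set S := Finset.univ.filter (fun p : Fin d × Fin d => X p.1 p.2 ≠ 0) with hS
    have hmemS : ∀ p, p ∈ S ↔ X p.1 p.2 ≠ 0 := fun p => by simp [hS]
    have hSne : S.Nonempty := by
      by_contra hcon
      rw [Finset.not_nonempty_iff_eq_empty, hS, Finset.filter_eq_empty_iff] at hcon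
      apply hX0
      funext i j
      have := hcon (Finset.mem_univ (i, j))
      simpa using this
    have hθS : ∀ p ∈ S, 0 < θ p.1 - θ p.2 := by
      intro p hp
      rw [hmemS] at hp
      by_contra hcon
      exact hp (hXup _ _ (by linarith))
    have hneS : ∀ p ∈ S, p.1 ≠ p.2 := by
      intro p hp heq
      have := hθS p hp
      rw [heq, sub_self] at this
      exact lt_irrefl _ this
    by_cases h1 : S.card ≤ 1
    · obtain ⟨p, hp⟩ := Finset.card_eq_one.1 (le_antisymm h1 (Finset.card_pos.2 hSne))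
      have hpS : p ∈ S := by rw [hp]; exact Finset.mem_singleton_self p
      refine ⟨h, p.1, p.2, X p.1 p.2, hneS p hpS, (hmemS p).1 hpS, ?_⟩
      have hXe : X = fun k l => if k = p.1 ∧ l = p.2 then X p.1 p.2 else 0 := by
        funext k l
        by_cases hkl : k = p.1 ∧ l = p.2
        · rw [if_pos hkl, hkl.1, hkl.2]
        · rw [if_neg hkl]
          by_contra hne
          have h2 : (k, l) ∈ S := (hmemS (k, l)).2 hne
          rw [hp, Finset.mem_singleton] at h2
          exact hkl ⟨congrArg Prod.fst h2, congrArg Prod.snd h2⟩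
      rw [← hXe]
      exact hP
    · obtain ⟨α, hα, β, hβ, hαβ⟩ := Finset.one_lt_card.1 (not_le.1 h1)
      -- a functional separating the two roots
      obtain ⟨f, hfα, hfβ⟩ : ∃ f : Fin d → ℝ, 0 < f α.1 - f α.2 ∧ f β.1 - f β.2 ≤ 0 := by
        have hαne := hneS α hα
        have hβne := hneS β hβ
        by_cases h2 : α.1 = β.1
        · have h3 : β.2 ≠ α.2 := fun h3 => hαβ (Prod.ext h2 h3.symm)
          have h4 : β.1 ≠ α.2 := by rw [← h2]; exact hαne
          refine ⟨fun k => if k = α.2 then -1 else 0, ?_, ?_⟩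
          · simp [hαne]
          · simp [h3, h4]
        · have h3 : β.1 ≠ α.1 := fun h4 => h2 h4.symm
          refine ⟨fun k => if k = α.1 then 1 else 0, ?_, ?_⟩
          · simp [hαne.symm]
          · simp only [if_neg h3]
            split_ifs <;> norm_num
      obtain ⟨p, hpS, hpmax⟩ := S.exists_max_image (fun p => (f p.1 - f p.2) / (θ p.1 - θ p.2))
        ⟨α, hα⟩
      set c := (f p.1 - f p.2) / (θ p.1 - θ p.2) with hc
      have hc0 : 0 < c := (div_pos hfα (hθS α hα)).trans_le (hpmax α hα)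
      set ψ : Fin d → ℝ := fun k => f k - c * θ k - (∑ l, (f l - c * θ l)) / d with hψ
      have hψsum : ∑ k, ψ k = 0 := by
        simp only [hψ]
        rw [Finset.sum_sub_distrib, Finset.sum_const, Finset.card_univ, Fintype.card_fin,
          nsmul_eq_mul, mul_div_cancel₀ _ hdR.ne', sub_self]
      have hψd : ∀ k l, ψ k - ψ l = (f k - f l) - c * (θ k - θ l) := fun k l => by
        simp only [hψ]; ring
      have hψS : ∀ q ∈ S, ψ q.1 - ψ q.2 ≤ 0 := by
        intro q hq
        rw [hψd]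
        have h2 := hpmax q hq
        rw [div_le_iff₀ (hθS q hq)] at h2
        linarith
      have hψp : ψ p.1 - ψ p.2 = 0 := by
        rw [hψd, hc, div_mul_cancel₀ _ (hθS p hpS).ne', sub_self]
      have hψβ : ψ β.1 - ψ β.2 < 0 := by
        rw [hψd]
        have := mul_pos hc0 (hθS β hβ)
        linarith
      obtain ⟨R, hR⟩ := exists_bound hd V ν hV hν
      set a : ℕ → Fin d → ℝ := fun n k => Real.exp ((n : ℝ) * ψ k) with ha
      have ha' : ∀ n, (∀ i, 0 < a n i) ∧ ∏ i, a n i = 1 := fun n => exp_pos_prod hψsum n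
      have hγ : ∀ n, ∃ γ : Matrix (Fin d) (Fin d) ℤ, IsUnit γ.det ∧
          ∀ i j, |(diagonal (a n) * h * zR γ) i j| ≤ R := by
        intro n
        have h1 : diagonal (a n) * h ∈ M := by
          have := hinv h hP.1 (a n) 1 (ha' n).1 (ha' n).2 (by simp)
          rwa [zR_one, Matrix.mul_one] at this
        exact hR _ (hMdet _ h1) (hMnu _ h1)
      choose γ hγu hγR using hγ
      obtain ⟨h', -, φ, hφ, hlim⟩ := (isCompact_box (d := d) R).tendsto_subseq hγR
      have hPn : ∀ n, Pr M 1 (diagonal (a n) * h * zR (γ n)) (cj (a n) X) := fun n =>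
        hP.act hinv (ha' n).1 (ha' n).2 (hγu n)
      set Y : Fin d → Fin d → ℝ := fun k l => if ψ k - ψ l = 0 then X k l else 0 with hY
      have hlimX : Tendsto (fun n => cj (a n) X) atTop (𝓝 Y) := by
        rw [tendsto_pi_nhds]
        intro k
        rw [tendsto_pi_nhds]
        intro l
        have h2 : (fun n => cj (a n) X k l) = fun n : ℕ => Real.exp ((n : ℝ) * (ψ k - ψ l)) * X k l :=
          funext fun n => cj_exp ψ n X k l
        rw [h2]
        by_cases h3 : ψ k - ψ l = 0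
        · simp only [hY, if_pos h3, h3, mul_zero, Real.exp_zero, one_mul]
          exact tendsto_const_nhds
        · simp only [hY, if_neg h3]
          by_cases h4 : X k l = 0
          · simp only [h4, mul_zero]
            exact tendsto_const_nhds
          · have h5 : ψ k - ψ l < 0 :=
              lt_of_le_of_ne (hψS (k, l) ((hmemS (k, l)).2 h4)) h3
            have h6 : Tendsto (fun n : ℕ => Real.exp ((n : ℝ) * (ψ k - ψ l))) atTop (𝓝 0) :=
              Real.tendsto_exp_atBot.comp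
                (tendsto_natCast_atTop_atTop.atTop_mul_const_of_neg h5)
            have h7 := h6.mul_const (X k l)
            rwa [zero_mul] at h7
      have hlimX' : Tendsto (fun n => cj (a (φ n)) X) atTop (𝓝 Y) := hlimX.comp hφ.tendsto_atTop
      have hP' : Pr M 1 h' Y := by
        refine ⟨hM.mem_of_tendsto hlim (Eventually.of_forall fun n => (hPn _).1), fun i => ?_, ?_⟩
        · simp only [hY, sub_self, if_true]
          exact hP.2.1 i
        · exact hM.mem_of_tendsto (tendsto_unip hlimX' hlim tendsto_const_nhds)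
            (Eventually.of_forall fun n => (hPn _).2.2)
      refine ih h' Y ?_ ?_ hP' ?_
      · intro hY0
        have h2 : Y p.1 p.2 = 0 := congrFun (congrFun hY0 p.1) p.2
        simp only [hY, if_pos hψp] at h2
        exact (hmemS p).1 hpS h2
      · intro i j hij
        simp only [hY]
        split_ifs
        · exact hXup i j hij
        · rfl
      · have h2 : (Finset.univ.filter (fun q : Fin d × Fin d => Y q.1 q.2 ≠ 0)) ⊆ S.erase β := by
          intro q hq
          rw [Finset.mem_filter] at hq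
          have h3 := hq.2
          simp only [hY] at h3
          by_cases h4 : ψ q.1 - ψ q.2 = 0
          · rw [if_pos h4] at h3
            refine Finset.mem_erase.2 ⟨fun h5 => ?_, (hmemS q).2 h3⟩
            rw [h5] at h4
            exact hψβ.ne h4
          · rw [if_neg h4] at h3
            exact absurd rfl h3
        refine (Finset.card_le_card h2).trans ?_
        rw [Finset.card_erase_of_mem hβ]
        omega

end Pool.Agent.W241.Lac
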