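import Mathlib
import Pool.Agent.W241.LacSingle

/-! # Minimal sets whose small values lie in a countable union of lacunary sets -/

open Filter Topology Matrix

namespace Pool.Agent.W241.Lac

open H715R2

variable {d : ℕ}

/-- The differences of `S` skip arbitrarily long ranges of scales, arbitrarily close to zero. -/
def Lacunary (S : Set ℝ) : Prop :=
  ∀ R : ℝ, 1 < R → ∀ ε : ℝ, 0 < ε → ∃ η : ℝ, 0 < η ∧ η < ε ∧
    ∀ s ∈ S, ∀ t ∈ S, |s - t| < η ∨ R * η < |s - t|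

lemma Lacunary.closure {S : Set ℝ} (hS : Lacunary S) : Lacunary (closure S) := by
  intro R hR ε hε
  obtain ⟨η, hη0, hηε, hη⟩ := hS (4 * R) (by linarith) (ε / 2) (by linarith)
  refine ⟨2 * η, by linarith, by linarith, ?_⟩
  have hcl : IsClosed {p : ℝ × ℝ | |p.1 - p.2| ≤ η ∨ 4 * R * η ≤ |p.1 - p.2|} := by
    have hc : Continuous (fun p : ℝ × ℝ => |p.1 - p.2|) :=
      continuous_abs.comp (continuous_fst.sub continuous_snd)
    exact (isClosed_le hc continuous_const).union (isClosed_le continuous_const hc)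
  have hsub : _root_.closure (S ×ˢ S) ⊆
      {p : ℝ × ℝ | |p.1 - p.2| ≤ η ∨ 4 * R * η ≤ |p.1 - p.2|} := by
    refine closure_minimal ?_ hcl
    rintro ⟨s, t⟩ ⟨hs, ht⟩
    rcases hη s hs t ht with h | h
    · exact Or.inl h.le
    · exact Or.inr h.le
  intro s hs t ht
  have h1 : (s, t) ∈ _root_.closure (S ×ˢ S) := by
    rw [closure_prod_eq]
    exact ⟨hs, ht⟩
  rcases hsub h1 with h | h
  · left
    exact lt_of_le_of_lt h (by linarith)
  · right
    refine lt_of_lt_of_le ?_ h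
    nlinarith [mul_pos (by linarith : (0 : ℝ) < R) hη0]

/-- the matrix with a single nonzero entry -/
def sg (i j : Fin d) (s : ℝ) : Fin d → Fin d → ℝ := fun k l => if k = i ∧ l = j then s else 0

lemma cj_sg (a : Fin d → ℝ) (i j : Fin d) (s : ℝ) : cj a (sg i j s) = sg i j (a i * s / a j) := by
  funext k l
  simp only [cj, sg]
  by_cases h : k = i ∧ l = j
  · rw [if_pos h, if_pos h, h.1, h.2]
  · rw [if_neg h, if_neg h, mul_zero, zero_div]

/-- values at a point moved by an elementary matrix -/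
lemma FF_sg (h : Matrix (Fin d) (Fin d) ℝ) {i j : Fin d} (s : ℝ) (m : Fin d → ℝ) :
    FF ((1 + Matrix.of (sg i j s)) * h) m =
      FF h m + s * ((h *ᵥ m) j * ∏ k ∈ Finset.univ.erase i, (h *ᵥ m) k) := by
  classical
  rw [FF_mul, FF_eq, FF_eq]
  set z := h *ᵥ m with hz
  have h1 : ∀ k, ((1 + Matrix.of (sg i j s) : Matrix (Fin d) (Fin d) ℝ) *ᵥ z) k
      = z k + if k = i then s * z j else 0 := by
    intro k
    rw [Matrix.add_mulVec, Matrix.one_mulVec, Pi.add_apply]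
    congr 1
    show ∑ l, sg i j s k l * z l = _
    by_cases hk : k = i
    · rw [if_pos hk, Finset.sum_eq_single j]
      · rw [sg, if_pos ⟨hk, rfl⟩]
      · intro l _ hl
        rw [sg, if_neg (fun h => hl h.2), zero_mul]
      · intro h
        exact absurd (Finset.mem_univ _) h
    · rw [if_neg hk]
      refine Finset.sum_eq_zero fun l _ => ?_
      rw [sg, if_neg (fun h => hk h.1), zero_mul]
  simp only [h1]
  rw [← Finset.mul_prod_erase Finset.univ _ (Finset.mem_univ i),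
    ← Finset.mul_prod_erase Finset.univ (fun k => z k) (Finset.mem_univ i), if_pos rfl]
  have h2 : ∏ k ∈ Finset.univ.erase i, (z k + if k = i then s * z j else 0)
      = ∏ k ∈ Finset.univ.erase i, z k := by
    refine Finset.prod_congr rfl fun k hk => ?_
    rw [if_neg (Finset.ne_of_mem_erase hk), add_zero]
  rw [h2]
  ring

/-- a diagonal matrix with a given ratio of two entries -/
lemma exists_ratio {i j : Fin d} (hij : i ≠ j) {r : ℝ} (hr : 0 < r) :
    ∃ a : Fin d → ℝ, (∀ k, 0 < a k) ∧ ∏ k, a k = 1 ∧ a i / a j = r := by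
  classical
  set w : Fin d → ℝ := fun k => if k = i then 1 else if k = j then -1 else 0 with hw
  have hsum : ∑ k, w k = 0 := by
    rw [← Finset.add_sum_erase Finset.univ _ (Finset.mem_univ i),
      ← Finset.add_sum_erase (Finset.univ.erase i) _
        (Finset.mem_erase.2 ⟨hij.symm, Finset.mem_univ j⟩)]
    rw [Finset.sum_eq_zero (s := (Finset.univ.erase i).erase j)]
    · simp [hw, hij.symm]
    · intro k hk
      simp [hw, Finset.ne_of_mem_erase (Finset.mem_of_mem_erase hk), Finset.ne_of_mem_erase hk]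
  obtain ⟨h1, h2⟩ := exp_pos_prod hsum (Real.log r / 2)
  refine ⟨_, h1, h2, ?_⟩
  rw [← Real.exp_sub]
  have h3 : Real.log r / 2 * w i - Real.log r / 2 * w j = Real.log r := by
    simp [hw, hij.symm]
  rw [h3, Real.exp_log hr]

/-- a point of `M` at which the small values stay in one member of a countable family of closed
sets -/
theorem locally_mem {M : Set (Matrix (Fin d) (Fin d) ℝ)} (hM : IsClosed M) (hne : M.Nonempty)
    (C : ℕ → Set ℝ) (hC : ∀ k, IsClosed (C k)) :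
    ∃ h₀ ∈ M, ∀ m : Fin d → ℤ, |FF h₀ (iR m)| ∈ ⋃ k, C k →
      ∃ k, ∀ᶠ h in 𝓝[M] h₀, |FF h (iR m)| ∈ C k := by
  classical
  have hlc : LocallyCompactSpace M := hM.locallyCompactSpace
  have hB : BaireSpace M := BaireSpace.of_t2Space_locallyCompactSpace
  have hMne : Nonempty M := hne.to_subtype
  let Z : (Fin d → ℤ) × ℕ → Set M := fun p =>
    {h | |FF (h : Matrix (Fin d) (Fin d) ℝ) (iR p.1)| ∈ C p.2}
  have hZc : ∀ p, IsClosed (Z p) := fun p =>
    (hC p.2).preimage (continuous_abs.comp ((continuous_FF (iR p.1)).comp continuous_subtype_val))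
  have hdense : Dense (⋂ p, (frontier (Z p))ᶜ) := by
    refine dense_iInter_of_isOpen (fun p => isClosed_frontier.isOpen_compl) fun p => ?_
    rw [← interior_eq_empty_iff_dense_compl]
    exact interior_frontier (hZc p)
  obtain ⟨h₀, hh₀⟩ := hdense.nonempty
  rw [Set.mem_iInter] at hh₀
  refine ⟨h₀, h₀.2, fun m hm => ?_⟩
  obtain ⟨k, hk⟩ := Set.mem_iUnion.1 hm
  refine ⟨k, ?_⟩
  have h1 := hh₀ (m, k)
  have h2 : h₀ ∈ Z (m, k) := hk
  have h3 : h₀ ∈ interior (Z (m, k)) := by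
    by_contra hcon
    exact h1 ⟨subset_closure h2, hcon⟩
  have h4 : ∀ᶠ h : M in 𝓝 h₀, |FF (h : Matrix (Fin d) (Fin d) ℝ) (iR m)| ∈ C k := by
    filter_upwards [mem_interior_iff_mem_nhds.1 h3] with h hh
    exact hh
  rw [nhdsWithin_eq_map_subtype_coe h₀.2, Filter.eventually_map]
  exact h4

/-- If the small absolute values on a minimal set lie in a countable union of lacunary sets, then
the minimal set contains a point all of whose rows are algebraic of degree at most `d`. -/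
theorem exists_alg_point_lac (hd : 2 ≤ d) {V ν T : ℝ} (hV : 0 < V) (hν : 0 < ν)
    (hT : ∀ h : Matrix (Fin d) (Fin d) ℝ, |h.det| = V →
      ∃ m : Fin d → ℤ, m ≠ 0 ∧ |FF h (iR m)| < T)
    {M : Set (Matrix (Fin d) (Fin d) ℝ)} (hMdet : ∀ h ∈ M, |h.det| = V)
    (hMnu : ∀ h ∈ M, HasNu h ν) (hMc : IsClosed M) (hMne : M.Nonempty) (hMinv : H715R2.Inv M)
    (hMmin : ∀ Z ⊆ M, IsClosed Z → Z.Nonempty → H715R2.Inv Z → Z = M)
    (C : ℕ → Set ℝ) (hC : ∀ k, Lacunary (C k))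
    (hMC : ∀ h ∈ M, ∀ m : Fin d → ℤ, m ≠ 0 → |FF h (iR m)| < T → |FF h (iR m)| ∈ ⋃ k, C k) :
    ∃ h₀ ∈ M, ∀ i, ∃ (K : IntermediateField ℚ ℝ), FiniteDimensional ℚ K ∧
      Module.finrank ℚ K ≤ d ∧ ∃ s : ℝ, s ≠ 0 ∧ ∀ j, s * h₀ i j ∈ K := by
  classical
  have hd0 : 0 < d := by omega
  obtain ⟨h₀, hh₀, hconst⟩ := locally_mem hMc hMne (fun k => closure (C k))
    (fun k => isClosed_closure)
  have hdet : |h₀.det| = V := hMdet _ hh₀
  have hdet0 : h₀.det ≠ 0 := by
    intro h0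
    rw [h0, abs_zero] at hdet
    exact hV.ne hdet
  by_cases hloc : ∀ᶠ h in 𝓝[M] h₀, ∃ a : Fin d → ℝ, (∀ i, 0 < a i) ∧ ∏ i, a i = 1 ∧
      h = diagonal a * h₀
  · have horb := single_orbit hMc hMinv hMmin hh₀ hloc
    obtain ⟨δ, c, hc, hδ⟩ := exists_stabilizer' hd hV hν hMdet hMnu hMc hMinv hh₀ hloc horb
    exact ⟨h₀, hh₀, fun i => exists_alg_row hdet0 δ c hc hδ i⟩
  exfalso
  obtain ⟨m, hm0, hmT⟩ := hT h₀ hdet
  have hz : ∀ j, (h₀ *ᵥ iR m) j ≠ 0 := by
    intro j hj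
    have h1 := hMnu _ hh₀ m hm0
    rw [FF_eq, Finset.prod_eq_zero (Finset.mem_univ j) hj, abs_zero] at h1
    exact absurd h1 (not_le.2 hν)
  have hF0 : FF h₀ (iR m) ≠ 0 := by
    rw [FF_eq]
    exact Finset.prod_ne_zero_iff.2 fun j _ => hz j
  obtain ⟨k, hk⟩ := hconst m (by
    obtain ⟨k, hk⟩ := Set.mem_iUnion.1 (hMC h₀ hh₀ m hm0 hmT)
    exact Set.mem_iUnion.2 ⟨k, subset_closure hk⟩)
  -- the elementary pair
  obtain ⟨θ, -, h₁, X, hX0, hXup, hP⟩ :=
    exists_upper hd0 hV hν hMdet hMnu hMc hMinv hh₀ hloc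
  obtain ⟨h₂, i, j, s, hij, hs, hP₂⟩ := exists_single hd0 hV hν hMdet hMnu hMc hMinv θ _ h₁ X hX0
    hXup hP le_rfl
  have hP₂' : Pr M 1 h₂ (sg i j s) := hP₂
  -- the derivative of the value
  set G : Matrix (Fin d) (Fin d) ℝ → ℝ := fun h =>
    (h *ᵥ iR m) j * ∏ k ∈ Finset.univ.erase i, (h *ᵥ iR m) k with hG
  have hGc : Continuous G := by
    have h1 : ∀ k, Continuous (fun h : Matrix (Fin d) (Fin d) ℝ => (h *ᵥ iR m) k) := by
      intro k
      unfold mulVec dotProduct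
      exact continuous_finsetSum _ fun l _ => (continuous_apply_apply k l).mul continuous_const
    exact (h1 j).mul (continuous_finsetProd _ fun k _ => h1 k)
  have hG0 : G h₀ ≠ 0 := mul_ne_zero (hz j) (Finset.prod_ne_zero_iff.2 fun k _ => hz k)
  set g₀ := |G h₀| with hg₀
  have hg₀pos : 0 < g₀ := abs_pos.2 hG0
  have hGev : ∀ᶠ h in 𝓝 h₀, g₀ / 2 < |G h| ∧ |G h| < 2 * g₀ := by
    have h1 := (continuous_abs.comp hGc).tendsto h₀
    exact (h1.eventually (lt_mem_nhds (by simp only [Function.comp]; linarith))).and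
      (h1.eventually (gt_mem_nhds (by simp only [Function.comp]; linarith)))
  have hsgn : ∀ᶠ h in 𝓝 h₀, 0 < FF h (iR m) * FF h₀ (iR m) := by
    have h1 : Tendsto (fun h : Matrix (Fin d) (Fin d) ℝ => FF h (iR m) * FF h₀ (iR m))
        (𝓝 h₀) (𝓝 (FF h₀ (iR m) * FF h₀ (iR m))) :=
      ((continuous_FF (iR m)).tendsto h₀).mul_const _
    exact h1.eventually (lt_mem_nhds (mul_self_pos.2 hF0))
  obtain ⟨W1, hW1, hW1e⟩ := mem_nhdsWithin_iff_exists_mem_nhds_inter.1 hk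
  have hW : W1 ∩ ({h | g₀ / 2 < |G h| ∧ |G h| < 2 * g₀} ∩ {h | 0 < FF h (iR m) * FF h₀ (iR m)})
      ∈ 𝓝 h₀ := Filter.inter_mem hW1 (Filter.inter_mem hGev hsgn)
  set W := W1 ∩ ({h | g₀ / 2 < |G h| ∧ |G h| < 2 * g₀} ∩ {h | 0 < FF h (iR m) * FF h₀ (iR m)})
    with hWdef
  -- a product neighbourhood
  have hel : Continuous (fun p : Matrix (Fin d) (Fin d) ℝ × ℝ =>
      (1 + Matrix.of (sg i j p.2) : Matrix (Fin d) (Fin d) ℝ) * p.1) := by
    have h1 : Continuous (fun p : Matrix (Fin d) (Fin d) ℝ × ℝ =>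
        (Matrix.of (sg i j p.2) : Matrix (Fin d) (Fin d) ℝ)) := by
      refine continuous_matrix fun k l => ?_
      simp only [Matrix.of_apply, sg]
      split_ifs
      · exact continuous_snd
      · exact continuous_const
    exact (continuous_const.add h1).matrix_mul continuous_fst
  have hel0 : (1 + Matrix.of (sg i j 0) : Matrix (Fin d) (Fin d) ℝ) * h₀ = h₀ := by
    have h1 : (1 + Matrix.of (sg i j 0) : Matrix (Fin d) (Fin d) ℝ) = 1 := by
      ext k l
      simp [sg]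
    rw [h1, Matrix.one_mul]
  have hev : ∀ᶠ p in 𝓝 (h₀, (0 : ℝ)), p.1 ∈ W ∧
      (1 + Matrix.of (sg i j p.2) : Matrix (Fin d) (Fin d) ℝ) * p.1 ∈ W := by
    refine Filter.Eventually.and ?_ ?_
    · exact (continuous_fst.tendsto (h₀, (0 : ℝ))).eventually hW
    · have h1 := hel.tendsto (h₀, (0 : ℝ))
      simp only [hel0] at h1
      exact h1.eventually hW
  obtain ⟨U1, hU1, U2, hU2, hU12⟩ := mem_nhds_prod_iff.1 hev
  obtain ⟨U, hUU1, hUo, hh₀U⟩ := mem_nhds_iff.1 hU1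
  obtain ⟨δ, hδ, hδU⟩ := Metric.mem_nhds_iff.1 hU2
  obtain ⟨B, hB, hret⟩ := exists_return hd0 hV hν hMdet hMnu hMc hMinv hMmin hh₀ hUo hh₀U
  have hB0 : 0 < B := by linarith
  -- a gap
  have hR : 1 < 4 * B ^ 4 + 1 := by
    have : 0 < 4 * B ^ 4 := by positivity
    linarith
  obtain ⟨η, hη0, hηlt, hηgap⟩ := (hC k).closure (4 * B ^ 4 + 1) hR (g₀ / 2 / B ^ 2 * (δ / B ^ 2))
    (by positivity)
  -- the scale of the pair
  set ρ : ℝ := η * B ^ 2 / (g₀ / 2) with hρ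
  have hρ0 : 0 < ρ := by positivity
  have hρδ : ρ * B ^ 2 < δ := by
    have h1 : η * B ^ 4 < g₀ / 2 * δ := by
      have h2 := mul_lt_mul_of_pos_right hηlt (by positivity : 0 < B ^ 4)
      have h3 : g₀ / 2 / B ^ 2 * (δ / B ^ 2) * B ^ 4 = g₀ / 2 * δ := by field_simp
      rwa [h3] at h2
    rw [hρ]
    have h2 : η * B ^ 2 / (g₀ / 2) * B ^ 2 = η * B ^ 4 / (g₀ / 2) := by ring
    rw [h2, div_lt_iff₀ (by positivity)]
    linarith
  obtain ⟨a, ha0, ha1, har⟩ := exists_ratio hij (r := ρ / |s|) (div_pos hρ0 (abs_pos.2 hs))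
  have hP₃ := hP₂'.act hMinv (γ := 1) ha0 ha1 (by simp)
  rw [cj_sg] at hP₃
  set σ₁ : ℝ := a i * s / a j with hσ₁
  have hσ₁abs : |σ₁| = ρ := by
    have h1 : σ₁ = (a i / a j) * s := by rw [hσ₁]; ring
    rw [h1, har, abs_mul, abs_div, abs_abs, abs_of_pos hρ0]
    exact div_mul_cancel₀ _ (abs_pos.2 hs).ne'
  obtain ⟨b, γ, hb0, hb1, hγ, hbB, hbU⟩ := hret _ hP₃.1
  have hP₄ := hP₃.act hMinv hb0 hb1 hγ
  rw [cj_sg] at hP₄
  set h : Matrix (Fin d) (Fin d) ℝ := diagonal b * (diagonal a * h₂ * zR 1) * zR γ with hh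
  set σ : ℝ := b i * σ₁ / b j with hσ
  have hσabs : |σ| = b i / b j * ρ := by
    have h1 : σ = (b i / b j) * σ₁ := by rw [hσ]; ring
    rw [h1, abs_mul, hσ₁abs, abs_of_pos (div_pos (hb0 i) (hb0 j))]
  have hratio : b i / b j ≤ B ^ 2 ∧ 1 / B ^ 2 ≤ b i / b j := by
    have hinvb : ∀ k, (b k)⁻¹ ≤ B := fun k => by
      rw [inv_le_comm₀ (hb0 k) hB0]; exact (hbB k).2
    constructor
    · rw [div_eq_mul_inv, pow_two]
      exact mul_le_mul (hbB i).1 (hinvb j) (inv_pos.2 (hb0 j)).le hB0.le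
    · rw [div_le_div_iff₀ (by positivity) (hb0 j), one_mul]
      have h1 : b j ≤ B := (hbB j).1
      have h2 : 1 ≤ b i * B := by
        have := (hbB i).2
        rw [inv_le_iff_one_le_mul₀ hB0] at this
        exact this
      nlinarith [hb0 i, hb0 j]
  have hσup : |σ| ≤ B ^ 2 * ρ := by
    rw [hσabs]; exact mul_le_mul_of_nonneg_right hratio.1 hρ0.le
  have hσlow : ρ / B ^ 2 ≤ |σ| := by
    rw [hσabs]
    have := mul_le_mul_of_nonneg_right hratio.2 hρ0.le
    calc ρ / B ^ 2 = 1 / B ^ 2 * ρ := by ring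
      _ ≤ _ := this
  have hmem : (h, σ) ∈ U1 ×ˢ U2 := by
    refine ⟨hUU1 hbU, hδU ?_⟩
    rw [mem_ball_zero_iff, Real.norm_eq_abs]
    linarith
  obtain ⟨hhW, hh'W⟩ := hU12 hmem
  obtain ⟨hhM, -, hh'M⟩ := hP₄
  rw [one_smul] at hh'M
  simp only at hhW hh'W
  set h' := (1 + Matrix.of (sg i j σ) : Matrix (Fin d) (Fin d) ℝ) * h with hh'
  have hc1 : |FF h (iR m)| ∈ closure (C k) := hW1e ⟨hhW.1, hhM⟩
  have hc2 : |FF h' (iR m)| ∈ closure (C k) := hW1e ⟨hh'W.1, hh'M⟩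
  have hs1 : 0 < FF h (iR m) * FF h₀ (iR m) := hhW.2.2
  have hs2 : 0 < FF h' (iR m) * FF h₀ (iR m) := hh'W.2.2
  have habs : |(|FF h (iR m)|) - (|FF h' (iR m)|)| = |σ| * |G h| := by
    have h0' : FF h' (iR m) = FF h (iR m) + σ * G h := FF_sg h σ (iR m)
    have h1 : |FF h (iR m) - FF h' (iR m)| = |σ| * |G h| := by
      rw [h0']
      have : FF h (iR m) - (FF h (iR m) + σ * G h) = -(σ * G h) := by ring
      rw [this, abs_neg, abs_mul]
    rw [← h1]
    rcases lt_or_gt_of_ne hF0 with h0 | h0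
    · have h1 : FF h (iR m) < 0 := by
        by_contra hcon
        push Not at hcon
        exact absurd hs1 (not_lt.2 (mul_nonpos_of_nonneg_of_nonpos hcon h0.le))
      have h2 : FF h' (iR m) < 0 := by
        by_contra hcon
        push Not at hcon
        exact absurd hs2 (not_lt.2 (mul_nonpos_of_nonneg_of_nonpos hcon h0.le))
      rw [abs_of_neg h1, abs_of_neg h2]
      have : -FF h (iR m) - -FF h' (iR m) = -(FF h (iR m) - FF h' (iR m)) := by ring
      rw [this, abs_neg]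
    · have h1 : 0 < FF h (iR m) := (pos_iff_pos_of_mul_pos hs1).2 h0
      have h2 : 0 < FF h' (iR m) := (pos_iff_pos_of_mul_pos hs2).2 h0
      rw [abs_of_pos h1, abs_of_pos h2]
  have hGh := hhW.2.1
  have hlow : η ≤ |σ| * |G h| := by
    have h1 : ρ / B ^ 2 * (g₀ / 2) ≤ |σ| * |G h| :=
      mul_le_mul hσlow hGh.1.le (by positivity) (abs_nonneg _)
    have h2 : ρ / B ^ 2 * (g₀ / 2) = η := by
      rw [hρ]; field_simp
    linarith
  have hup : |σ| * |G h| < (4 * B ^ 4 + 1) * η := by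
    have h1 : |σ| * |G h| ≤ B ^ 2 * ρ * (2 * g₀) :=
      mul_le_mul hσup hGh.2.le (abs_nonneg _) (by positivity)
    have h2 : B ^ 2 * ρ * (2 * g₀) = 4 * B ^ 4 * η := by
      rw [hρ]; field_simp; ring
    linarith
  rcases hηgap _ hc1 _ hc2 with h1 | h1
  · rw [habs] at h1
    linarith
  · rw [habs] at h1
    linarith

end Pool.Agent.W241.Lac
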