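import Mathlib
import Pool.Agent.W241.LacMain
import Pool.Agent.H715R2.CountableValues
import Pool.Agent.H715R2.Littlewood

/-! # Forms whose small values have a lacunary closure -/

open Filter Topology Matrix

namespace Pool.Agent.W241.Lac

open H715R2

variable {d : ℕ}

lemma mem_small_closure' {g h : Matrix (Fin d) (Fin d) ℝ} (hh : h ∈ closure (Orb g)) (T : ℝ)
    (m : Fin d → ℤ) (hm0 : m ≠ 0) (hm : |FF h (iR m)| < T) :
    |FF h (iR m)| ∈ closure {t : ℝ | ∃ x : Fin d → ℤ, x ≠ 0 ∧ |FF g (iR x)| = t ∧ t < T} := by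
  obtain ⟨u, hu, hlim⟩ := exists_seq_of_mem_closure hh
  have h1 : Tendsto (fun n => |FF (u n) (iR m)|) atTop (𝓝 |FF h (iR m)|) :=
    ((continuous_abs.comp (continuous_FF (iR m))).tendsto h).comp hlim
  have h2 := h1.eventually (gt_mem_nhds hm)
  refine mem_closure_of_tendsto h1 (h2.mono fun n hn => ?_)
  obtain ⟨a, γ, _, ha, hγ, hun⟩ := hu n
  have hγm : γ *ᵥ m ≠ 0 := by
    intro h0
    apply hm0
    have h3 : γ⁻¹ *ᵥ (γ *ᵥ m) = 0 := by rw [h0, mulVec_zero]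
    rwa [mulVec_mulVec, Matrix.nonsing_inv_mul _ hγ, one_mulVec] at h3
  have hval : FF (u n) (iR m) = FF g (iR (γ *ᵥ m)) := by rw [hun, FF_orb ha]
  exact ⟨γ *ᵥ m, hγm, by rw [hval], hn⟩

/-- If the closure of the set of absolute values `< T` at nonzero integer points is contained in the
countable union of lacunary sets, then the form is proportional to an integral form or takes
arbitrarily small values at nonzero integer points. -/
theorem lacunary_values (hd : 3 ≤ d) {g : Matrix (Fin d) (Fin d) ℝ} (hg : g.det ≠ 0) (T : ℝ)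
    (hT : (d.factorial : ℝ) * |g.det| < (d : ℝ) ^ d * T ∨
      ∀ h : Matrix (Fin d) (Fin d) ℝ, |h.det| = |g.det| →
        ∃ m : Fin d → ℤ, m ≠ 0 ∧ |FF h (iR m)| < T)
    (C : ℕ → Set ℝ) (hC : ∀ k, Lacunary (C k))
    (hcov : closure {t : ℝ | ∃ x : Fin d → ℤ, x ≠ 0 ∧ |FF g (iR x)| = t ∧ t < T} ⊆ ⋃ k, C k) :
    PropInt g ∨ ∀ ε : ℝ, 0 < ε → ∃ x : Fin d → ℤ, x ≠ 0 ∧ |FF g (iR x)| < ε := by
  classical
  by_cases hsmall : ∀ ε : ℝ, 0 < ε → ∃ x : Fin d → ℤ, x ≠ 0 ∧ |FF g (iR x)| < ε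
  · exact Or.inr hsmall
  left
  push Not at hsmall
  obtain ⟨ν, hν, hnu⟩ := hsmall
  have hnu' : HasNu g ν := hnu
  have hd0 : 0 < d := by omega
  have hV : 0 < |g.det| := abs_pos.2 hg
  have hT' : ∀ h : Matrix (Fin d) (Fin d) ℝ, |h.det| = |g.det| →
      ∃ m : Fin d → ℤ, m ≠ 0 ∧ |FF h (iR m)| < T := by
    rcases hT with hT | hT
    · exact fun h hh => mink_prod (by omega) |g.det| T hV hT h hh
    · exact hT
  obtain ⟨M, hMg, hMc, hMne, hMinv, hMmin⟩ := exists_minimal hd0 hν hg hnu'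
  obtain ⟨h₀, hh₀, hrows⟩ := exists_alg_point_lac (by omega : 2 ≤ d) hV hν hT'
    (fun h hh => abs_det_closure (hMg hh)) (fun h hh => hasNu_closure hnu' (hMg hh)) hMc hMne hMinv
    hMmin C hC (fun h hh m hm0 hm => hcov (mem_small_closure' (hMg hh) T m hm0 hm))
  have hnu₀ := hasNu_closure hnu' (hMg hh₀)
  obtain ⟨K, hfin, hK, s, hs, hmem⟩ := hrows ⟨0, hd0⟩
  rcases limit_alg hd hg (hMg hh₀) ⟨0, hd0⟩ s hs K hK hmem with ⟨x, hx, hx0⟩ | hint | hdense
  · exfalso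
    have h1 := hnu₀ x hx
    have h2 : FF h₀ (iR x) = 0 := by
      rw [FF]
      exact Finset.prod_eq_zero (Finset.mem_univ ⟨0, hd0⟩) hx0
    rw [h2, abs_zero] at h1
    exact absurd h1 (not_le.2 hν)
  · exact hint
  · exfalso
    obtain ⟨x, hx, hx2⟩ := dense_ne hd0 hdense 0 ν hν
    rw [sub_zero] at hx2
    exact absurd (hnu x hx) (not_le.2 hx2)

/-- If the limit values `< T` of `q ‖qα‖ ‖qβ‖` lie in a countable union of lacunary sets, then
Littlewood's conjecture holds for `(α, β)`. -/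
theorem littlewood_lacunary (α β T : ℝ)
    (hT : 2 / 9 < T ∨ ∀ h : Matrix (Fin 3) (Fin 3) ℝ, |h.det| = 1 →
      ∃ m : Fin 3 → ℤ, m ≠ 0 ∧ |FF h (iR m)| < T)
    (C : ℕ → Set ℝ) (hC : ∀ k, Lacunary (C k))
    (hcov : {t : ℝ | t < T ∧ MapClusterPt t atTop (fL α β)} ⊆ ⋃ k, C k) :
    ∀ ε : ℝ, 0 < ε → ∀ N : ℕ, ∃ q : ℕ, N ≤ q ∧ 0 < q ∧ fL α β q < ε := by
  by_contra hcon
  push Not at hcon
  obtain ⟨ε, hε, N, hN⟩ := hcon
  obtain ⟨ν, hν0, hν⟩ := exists_nu hε hN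
  have hT' : ∀ h : Matrix (Fin 3) (Fin 3) ℝ, |h.det| = 1 →
      ∃ m : Fin 3 → ℤ, m ≠ 0 ∧ |FF h (iR m)| < T := by
    rcases hT with hT | hT
    · intro h hh
      refine mink_prod (by norm_num) 1 T one_pos ?_ h hh
      have : ((Nat.factorial 3 : ℕ) : ℝ) = 6 := by norm_num [Nat.factorial]
      rw [this]
      push_cast
      linarith
    · exact hT
  obtain ⟨M, hMY, hMc, hMne, hMinv, hMmin⟩ := exists_minimal' (by norm_num : 0 < 3) one_pos hν0
    (YY_closed (LLm α β)) (YY_nonempty hν0 hν) (YY_inv _)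
    (fun h hh => by rw [abs_det_closure (YY_subset _ hh), LLm_det]) (fun h hh => YY_nu hν hh)
  obtain ⟨h₀, hh₀, hrows⟩ := exists_alg_point_lac (by norm_num : 2 ≤ 3) one_pos hν0 hT'
    (fun h hh => by rw [abs_det_closure (YY_subset _ (hMY hh)), LLm_det])
    (fun h hh => YY_nu hν (hMY hh)) hMc hMne hMinv hMmin C hC (by
      intro h hh m hm0 hm
      exact hcov ⟨hm, cluster hν0 (hMY hh) (YY_nu hν (hMY hh)) m hm0⟩)
  obtain ⟨K, hfin, hK, s, hs, hmem⟩ := hrows 0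
  exact no_alg_point hν0 hν (hMY hh₀) 0 s hs K hK hmem

end Pool.Agent.W241.Lac
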