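import Mathlib
import Pool.Agent.W241.LacMain
import Pool.Agent.W241.LacD
import Pool.Agent.H905R2.OppD

/-! # Pairs of bounded products with `d - 1` common factors -/

open Filter Topology Matrix

namespace Pool.Agent.W241.Lac

open H715R2

variable {d : ℕ}

/-- A counterexample to the conjecture of Cassels and Swinnerton-Dyer gives two points of a minimal
set which differ by an elementary matrix. -/
theorem exists_pair (hd : 3 ≤ d) {g : Matrix (Fin d) (Fin d) ℝ} (hg : g.det ≠ 0) {ν : ℝ}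
    (hν : 0 < ν) (hnu : HasNu g ν) (hP : ¬ PropInt g) :
    ∃ (h : Matrix (Fin d) (Fin d) ℝ) (i j : Fin d) (s : ℝ), i ≠ j ∧ s ≠ 0 ∧
      h ∈ closure (Orb g) ∧ (1 + Matrix.of (sg i j s)) * h ∈ closure (Orb g) ∧
      (1 + Matrix.of (sg i j s)) * h ∈ closure (Orb h) ∧
      h ∈ closure (Orb ((1 + Matrix.of (sg i j s)) * h)) := by
  classical
  have hd0 : 0 < d := by omega
  have hV : 0 < |g.det| := abs_pos.2 hg
  obtain ⟨M, hMg, hMc, ⟨h₀, hh₀⟩, hMinv, hMmin⟩ := exists_minimal hd0 hν hg hnu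
  have hMdet : ∀ h ∈ M, |h.det| = |g.det| := fun h hh => abs_det_closure (hMg hh)
  have hMnu : ∀ h ∈ M, HasNu h ν := fun h hh => hasNu_closure hnu (hMg hh)
  by_cases hloc : ∀ᶠ h in 𝓝[M] h₀, ∃ a : Fin d → ℝ, (∀ i, 0 < a i) ∧ ∏ i, a i = 1 ∧
      h = diagonal a * h₀
  · exfalso
    have hdet0 : h₀.det ≠ 0 := by
      intro h0
      have := hMdet h₀ hh₀
      rw [h0, abs_zero] at this
      exact hV.ne this
    have horb := single_orbit hMc hMinv hMmin hh₀ hloc
    obtain ⟨δ, c, hc, hδ⟩ := exists_stabilizer' (by omega) hV hν hMdet hMnu hMc hMinv hh₀ hloc horb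
    obtain ⟨K, hfin, hK, s, hs, hmem⟩ := exists_alg_row hdet0 δ c hc hδ ⟨0, hd0⟩
    rcases limit_alg hd hg (hMg hh₀) ⟨0, hd0⟩ s hs K hK hmem with ⟨x, hx, hx0⟩ | hint | hdense
    · have h1 := hMnu h₀ hh₀ x hx
      have h2 : FF h₀ (iR x) = 0 := by
        rw [FF]
        exact Finset.prod_eq_zero (Finset.mem_univ ⟨0, hd0⟩) hx0
      rw [h2, abs_zero] at h1
      exact absurd h1 (not_le.2 hν)
    · exact hP hint
    · obtain ⟨x, hx, hx2⟩ := dense_ne hd0 hdense 0 ν hν
      rw [sub_zero] at hx2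
      exact absurd (hnu x hx) (not_le.2 hx2)
  obtain ⟨θ, -, h₁, X, hX0, hXup, hPr⟩ :=
    exists_upper hd0 hV hν hMdet hMnu hMc hMinv hh₀ hloc
  obtain ⟨h₂, i, j, s, hij, hs, hP₂⟩ := exists_single hd0 hV hν hMdet hMnu hMc hMinv θ _ h₁ X hX0
    hXup hPr le_rfl
  have hP₂' : Pr M 1 h₂ (sg i j s) := hP₂
  obtain ⟨hm1, -, hm2⟩ := hP₂'
  rw [one_smul] at hm2
  have hall : ∀ h ∈ M, ∀ h' ∈ M, h' ∈ closure (Orb h) := by
    intro h hh h' hh'
    have hsub : closure (Orb h) ⊆ M := by
      refine closure_minimal ?_ hMc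
      rintro _ ⟨a, γ, ha0, ha, hγ, rfl⟩
      exact hMinv h hh a γ ha0 ha hγ
    have heq := hMmin (closure (Orb h)) hsub isClosed_closure ⟨h, subset_closure (mem_orb_self h)⟩
      (fun h hh a γ ha0 ha hγ => closure_mul hh ha0 ha hγ)
    rw [heq]
    exact hh'
  exact ⟨h₂, i, j, s, hij, hs, hMg hm1, hMg hm2, hall _ hm1 _ hm2, hall _ hm2 _ hm1⟩

/-- The eigenvalues of the stabilising matrix are distinct. -/
theorem eigen_inj {L : Matrix (Fin d) (Fin d) ℝ} (hL : L.det ≠ 0)
    (A : Matrix (Fin d) (Fin d) ℤ) (hirr : Irreducible (A.charpoly.map (Int.castRingHom ℚ)))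
    (lam : Fin d → ℝ) (hA : L * zR A = diagonal lam * L) : Function.Injective lam := by
  classical
  have hu : IsUnit L.det := isUnit_iff_ne_zero.2 hL
  have h1 : zR A = L⁻¹ * diagonal lam * L := by
    rw [Matrix.mul_assoc, ← hA, ← Matrix.mul_assoc, Matrix.nonsing_inv_mul _ hu, Matrix.one_mul]
  have h2 : (zR A).charpoly = (diagonal lam).charpoly := by
    rw [h1]
    obtain ⟨U, hU⟩ := (Matrix.isUnit_iff_isUnit_det L).2 hu
    rw [← hU]
    exact Matrix.charpoly_units_conj' U (diagonal lam)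
  have h3 : (diagonal lam).charpoly = ∏ i, (Polynomial.X - Polynomial.C (lam i)) :=
    Matrix.charpoly_diagonal lam
  have h4 : (zR A).charpoly = (A.charpoly.map (Int.castRingHom ℚ)).map (algebraMap ℚ ℝ) := by
    rw [Polynomial.map_map]
    have : (zR A) = A.map (Int.castRingHom ℝ) := rfl
    rw [this, Matrix.charpoly_map]
    congr 1
  have h5 : (zR A).charpoly.Separable := by
    rw [h4]
    exact (hirr.separable).map
  rw [h2, h3] at h5
  exact Polynomial.separable_prod_X_sub_C_iff.1 h5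

/-- the linear forms are eigenvectors -/
theorem exists_diag {L : Matrix (Fin d) (Fin d) ℝ} (hL : L.det ≠ 0) (A : Matrix (Fin d) (Fin d) ℤ)
    (h : ∀ i : Fin d, ∀ x : Fin d → ℝ, ∑ j, L i j * x j = 0 →
          ∑ j, L i j * ((A.map (Int.cast : ℤ → ℝ)).mulVec x) j = 0) :
    ∃ lam : Fin d → ℝ, L * zR A = diagonal lam * L := by
  classical
  have hu : IsUnit L.det := isUnit_iff_ne_zero.2 hL
  set Q : Matrix (Fin d) (Fin d) ℝ := L * zR A * L⁻¹ with hQ
  have hQL : L * zR A = Q * L := by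
    rw [hQ, Matrix.mul_assoc _ L⁻¹, Matrix.nonsing_inv_mul _ hu, Matrix.mul_one]
  have hQd : ∀ i j, i ≠ j → Q i j = 0 := by
    intro i j hij
    -- apply to the column x = L⁻¹ e_j
    have h1 := h i (fun k => L⁻¹ k j) (by
      have h2 : (L * L⁻¹) i j = 0 := by
        rw [Matrix.mul_nonsing_inv _ hu, Matrix.one_apply_ne hij]
      rw [Matrix.mul_apply] at h2
      exact h2)
    rw [hQ, Matrix.mul_assoc, Matrix.mul_apply]
    exact h1
  refine ⟨fun i => Q i i, ?_⟩
  rw [hQL]
  congr 1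
  ext i j
  by_cases hij : i = j
  · subst hij
    rw [diagonal_apply_eq]
  · rw [diagonal_apply_ne _ hij, hQd i j hij]

/-- Two products of linear forms with `d - 1` common factors, both bounded away from zero: they are
not both proportional to integral forms. -/
theorem not_both (hd : 2 ≤ d) {L : Matrix (Fin d) (Fin d) ℝ} (hL : L.det ≠ 0) {i j : Fin d}
    (hij : i ≠ j) {s : ℝ} (hs : s ≠ 0) {ν : ℝ} (hν : 0 < ν) (h1 : HasNu L ν)
    (h2 : HasNu ((1 + Matrix.of (sg i j s)) * L) ν) (hP1 : PropInt L)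
    (hP2 : PropInt ((1 + Matrix.of (sg i j s)) * L)) : False := by
  classical
  have hd0 : 0 < d := by omega
  set E : Matrix (Fin d) (Fin d) ℝ := 1 + Matrix.of (sg i j s) with hE
  have hEdet : E.det = 1 := by
    have : E = Matrix.transvection i j s := by
      rw [hE, Matrix.transvection]
      congr 1
      ext k l
      simp only [Matrix.of_apply, sg, Matrix.single]
      by_cases h : k = i ∧ l = j
      · rw [if_pos h, if_pos ⟨h.1.symm, h.2.symm⟩]
      · rw [if_neg h, if_neg (fun h' => h ⟨h'.1.symm, h'.2.symm⟩)]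
    rw [this, Matrix.det_transvection_of_ne _ _ hij]
  set L' : Matrix (Fin d) (Fin d) ℝ := E * L with hL'
  have hL'det : L'.det ≠ 0 := by rw [hL', det_mul, hEdet, one_mul]; exact hL
  have hnz : ∀ (B : Matrix (Fin d) (Fin d) ℝ), HasNu B ν → ∀ p : Fin d → ℤ, p ≠ 0 →
      FF B (iR p) ≠ 0 := by
    intro B hB p hp h0
    have := hB p hp
    rw [h0, abs_zero] at this
    exact absurd this (not_le.2 hν)
  obtain ⟨A, -, hAirr, -, hA⟩ := Pool.Agent.H905R2.Opp.oppA L hd0 hL hP1 (hnz L h1)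
  obtain ⟨A', -, hAirr', -, hA'⟩ := Pool.Agent.H905R2.Opp.oppA L' hd0 hL'det hP2 (hnz L' h2)
  obtain ⟨lam, hlam⟩ := exists_diag hL A hA
  obtain ⟨mu, hmu⟩ := exists_diag hL'det A' hA'
  have hlinj := eigen_inj hL A hAirr lam hlam
  have hminj := eigen_inj hL'det A' hAirr' mu hmu
  -- rows
  have hrowE : ∀ k, k ≠ i → L' k = L k := by
    intro k hk
    funext l
    rw [hL', hE, Matrix.add_mul, Matrix.one_mul, Matrix.add_apply, Matrix.mul_apply]
    rw [Finset.sum_eq_zero, add_zero]
    intro m _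
    simp only [Matrix.of_apply, sg]
    rw [if_neg (fun h => hk h.1), zero_mul]
  have hrowi : L' i = L i + s • L j := by
    funext l
    rw [hL', hE, Matrix.add_mul, Matrix.one_mul, Matrix.add_apply, Matrix.mul_apply,
      Finset.sum_eq_single j]
    · simp [sg]
    · intro m _ hm
      simp only [Matrix.of_apply, sg]
      rw [if_neg (fun h => hm h.2), zero_mul]
    · intro h
      exact absurd (Finset.mem_univ _) h
  have hlrow : ∀ k, L k ᵥ* zR A = lam k • L k := by
    intro k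
    have h3 : (L * zR A) k = (diagonal lam * L) k := by rw [hlam]
    rw [Matrix.mul_apply_eq_vecMul] at h3
    rw [h3]
    funext l
    rw [Matrix.diagonal_mul]
    rfl
  have hmrow : ∀ k, L' k ᵥ* zR A' = mu k • L' k := by
    intro k
    have h3 : (L' * zR A') k = (diagonal mu * L') k := by rw [hmu]
    rw [Matrix.mul_apply_eq_vecMul] at h3
    rw [h3]
    funext l
    rw [Matrix.diagonal_mul]
    rfl
  -- the commutator vanishes
  have hcomm : A * A' = A' * A := by
    by_contra hne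
    have hC : A * A' - A' * A ≠ 0 := sub_ne_zero.2 hne
    obtain ⟨q, hq⟩ : ∃ q, (fun k => (A * A' - A' * A) k q) ≠ 0 := by
      by_contra hcon
      push Not at hcon
      apply hC
      ext k q
      exact congrFun (hcon q) k
    set p : Fin d → ℤ := fun k => (A * A' - A' * A) k q with hp
    have hkill : ∀ k, k ≠ i → L k ⬝ᵥ iR p = 0 := by
      intro k hk
      have h3 : L k ᵥ* (zR A * zR A' - zR A' * zR A) = 0 := by
        rw [Matrix.vecMul_sub, ← Matrix.vecMul_vecMul, ← Matrix.vecMul_vecMul, hlrow]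
        have h4 : L k ᵥ* zR A' = mu k • L k := by
          have := hmrow k
          rwa [hrowE k hk] at this
        rw [h4, Matrix.smul_vecMul, Matrix.smul_vecMul, h4, hlrow, smul_smul, smul_smul, mul_comm,
          sub_self]
      have h5 : iR p = fun k => (zR A * zR A' - zR A' * zR A) k q := by
        funext k
        rw [← zR_mul, ← zR_mul]
        simp [iR, hp, zR]
      rw [h5]
      exact congrFun h3 q
    have h6 : FF L (iR p) = 0 := by
      rw [FF]
      exact Finset.prod_eq_zero (Finset.mem_univ j) (hkill j hij.symm)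
    exact hnz L h1 p hq h6
  have hcommR : zR A * zR A' = zR A' * zR A := by rw [← zR_mul, ← zR_mul, hcomm]
  -- the vector v = lam i • L i + s • lam j • L j
  have hv1 : (L' i ᵥ* zR A) ᵥ* zR A' = mu i • (L' i ᵥ* zR A) := by
    rw [Matrix.vecMul_vecMul, hcommR, ← Matrix.vecMul_vecMul, hmrow, Matrix.smul_vecMul]
  have hv2 : L' i ᵥ* zR A = lam i • L' i + (s * (lam j - lam i)) • L' j := by
    rw [hrowE j hij.symm, hrowi, Matrix.add_vecMul, Matrix.smul_vecMul, hlrow, hlrow]
    funext l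
    simp only [Pi.add_apply, Pi.smul_apply, smul_eq_mul]
    ring
  rw [hv2, Matrix.add_vecMul, Matrix.smul_vecMul, Matrix.smul_vecMul, hmrow, hmrow] at hv1
  have h7 : (s * (lam j - lam i) * (mu j - mu i)) • L' j = 0 := by
    funext l
    have h8 := congrFun hv1 l
    simp only [Pi.add_apply, Pi.smul_apply, smul_eq_mul] at h8 ⊢
    have : s * (lam j - lam i) * (mu j - mu i) * L' j l
        = (lam i * (mu i * L' i l) + s * (lam j - lam i) * (mu j * L' j l))
          - mu i * (lam i * L' i l + s * (lam j - lam i) * L' j l) := by ring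
    rw [this, h8]
    simp
  have h9 : L' j ≠ 0 := by
    intro h0
    apply hL'det
    exact Matrix.det_eq_zero_of_row_eq_zero j (fun k => congrFun h0 k)
  have h10 : s * (lam j - lam i) * (mu j - mu i) ≠ 0 := by
    refine mul_ne_zero (mul_ne_zero hs ?_) ?_
    · exact sub_ne_zero.2 fun h => hij (hlinj h).symm
    · exact sub_ne_zero.2 fun h => hij (hminj h).symm
  exact h9 ((smul_eq_zero.1 h7).resolve_left h10)

/-- The main equivalence. -/
theorem pair_main (hd : 3 ≤ d) :
    ((∀ g : Matrix (Fin d) (Fin d) ℝ, g.det ≠ 0 → ¬ PropInt g →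
        ∀ ε : ℝ, 0 < ε → ∃ x : Fin d → ℤ, x ≠ 0 ∧ |FF g (iR x)| < ε) →
      ¬ ∃ (g h : Matrix (Fin d) (Fin d) ℝ) (i j : Fin d) (ν : ℝ), g.det ≠ 0 ∧ i ≠ j ∧ 0 < ν ∧
        h = g.updateRow i (g i + g j) ∧ HasNu g ν ∧ HasNu h ν) ∧
    ((¬ ∃ (g h : Matrix (Fin d) (Fin d) ℝ) (i j : Fin d) (ν : ℝ), g.det ≠ 0 ∧ i ≠ j ∧ 0 < ν ∧
        h = g.updateRow i (g i + g j) ∧ HasNu g ν ∧ HasNu h ν ∧
        h ∈ closure (Orb g) ∧ g ∈ closure (Orb h)) →
      (∀ g : Matrix (Fin d) (Fin d) ℝ, g.det ≠ 0 → ¬ PropInt g →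
        ∀ ε : ℝ, 0 < ε → ∃ x : Fin d → ℤ, x ≠ 0 ∧ |FF g (iR x)| < ε)) := by
  classical
  have hupd : ∀ (g : Matrix (Fin d) (Fin d) ℝ) (i j : Fin d), i ≠ j →
      g.updateRow i (g i + g j) = (1 + Matrix.of (sg i j 1)) * g := by
    intro g i j hij
    ext k l
    rw [Matrix.add_mul, Matrix.one_mul, Matrix.add_apply, Matrix.mul_apply]
    by_cases hk : k = i
    · subst hk
      rw [Matrix.updateRow_self, Finset.sum_eq_single j]
      · simp [sg]
      · intro m _ hm
        simp only [Matrix.of_apply, sg]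
        rw [if_neg (fun h => hm h.2), zero_mul]
      · intro h
        exact absurd (Finset.mem_univ _) h
    · rw [Matrix.updateRow_ne hk, Finset.sum_eq_zero, add_zero]
      intro m _
      simp only [Matrix.of_apply, sg]
      rw [if_neg (fun h => hk h.1), zero_mul]
  constructor
  · rintro hconj ⟨g, h, i, j, ν, hg, hij, hν, rfl, h1, h2⟩
    have key : ∀ B : Matrix (Fin d) (Fin d) ℝ, B.det ≠ 0 → HasNu B ν → PropInt B := by
      intro B hB hBν
      by_contra hP
      obtain ⟨x, hx, hx2⟩ := hconj B hB hP ν hν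
      exact absurd (hBν x hx) (not_le.2 hx2)
    have hdet : (g.updateRow i (g i + g j)).det ≠ 0 := by
      rw [Matrix.det_updateRow_add_self g hij]
      exact hg
    have hP2 := key _ hdet h2
    rw [hupd g i j hij] at h2 hP2
    exact not_both (by omega) hg hij one_ne_zero hν h1 h2 (key g hg h1) hP2
  · intro hno g hg hP
    by_contra hcon
    push Not at hcon
    obtain ⟨ν, hν, hnu⟩ := hcon
    apply hno
    obtain ⟨h, i, j, s, hij, hs, hc1, hc2, hc3, hc4⟩ := exists_pair hd hg hν hnu hP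
    -- scale the row j by s
    set D : Matrix (Fin d) (Fin d) ℝ := diagonal (fun k => if k = j then s else 1) with hD
    have hDdet : (∏ k, if k = j then s else (1 : ℝ)) = s := by
      rw [Finset.prod_ite_eq' Finset.univ j (fun _ => s), if_pos (Finset.mem_univ j)]
    have hnuD : ∀ B : Matrix (Fin d) (Fin d) ℝ, HasNu B ν → HasNu (D * B) (|s| * ν) := by
      intro B hB x hx
      rw [hD, FF_diag_mul, hDdet, abs_mul]
      exact mul_le_mul_of_nonneg_left (hB x hx) (abs_nonneg s)
    have hDE : D * ((1 + Matrix.of (sg i j s)) * h) = (1 + Matrix.of (sg i j 1)) * (D * h) := by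
      rw [← Matrix.mul_assoc, ← Matrix.mul_assoc]
      congr 1
      rw [Matrix.mul_add, Matrix.add_mul, Matrix.mul_one, Matrix.one_mul]
      congr 1
      ext k l
      rw [hD, Matrix.diagonal_mul, Matrix.mul_diagonal]
      simp only [Matrix.of_apply, sg]
      by_cases hkl : k = i ∧ l = j
      · rw [if_pos hkl, if_pos hkl, if_pos hkl.2, if_neg (by rw [hkl.1]; exact hij)]
      · rw [if_neg hkl, if_neg hkl, mul_zero, zero_mul]
    have hcl : ∀ B B' : Matrix (Fin d) (Fin d) ℝ, B' ∈ closure (Orb B) →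
        D * B' ∈ closure (Orb (D * B)) := by
      intro B B' hB
      have hc : Continuous (fun C : Matrix (Fin d) (Fin d) ℝ => D * C) :=
        continuous_const.matrix_mul continuous_id
      refine map_mem_closure hc hB ?_
      rintro _ ⟨a, γ, ha0, ha, hγ, rfl⟩
      refine ⟨a, γ, ha0, ha, hγ, ?_⟩
      have hcomm : D * diagonal a = diagonal a * D := by
        rw [hD, diagonal_mul_diagonal, diagonal_mul_diagonal]
        congr 1
        funext k
        ring
      rw [← Matrix.mul_assoc, ← Matrix.mul_assoc, hcomm, Matrix.mul_assoc (diagonal a)]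
    refine ⟨D * h, (D * h).updateRow i ((D * h) i + (D * h) j), i, j, |s| * ν, ?_, hij,
      mul_pos (abs_pos.2 hs) hν, rfl, hnuD h (hasNu_closure hnu hc1), ?_, ?_, ?_⟩
    · rw [det_mul, hD, det_diagonal, hDdet]
      refine mul_ne_zero hs ?_
      intro h0
      have := abs_det_closure hc1
      rw [h0, abs_zero] at this
      exact hg (abs_eq_zero.1 this.symm)
    · rw [hupd _ i j hij, ← hDE]
      exact hnuD _ (hasNu_closure hnu hc2)
    · rw [hupd _ i j hij, ← hDE]
      exact hcl _ _ hc3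
    · rw [hupd _ i j hij, ← hDE]
      exact hcl _ _ hc4

lemma approx_of_closure {g h : Matrix (Fin d) (Fin d) ℝ} (hh : h ∈ closure (Orb g)) :
    ∀ ε : ℝ, 0 < ε → ∃ (t : Fin d → ℝ) (γ : Matrix (Fin d) (Fin d) ℤ), (∀ k, 0 < t k) ∧
      ∏ k, t k = 1 ∧ IsUnit γ.det ∧
      ∀ k l, |(diagonal t * g * γ.map (Int.cast : ℤ → ℝ)) k l - h k l| < ε := by
  intro ε hε
  obtain ⟨u, hu, hlim⟩ := exists_seq_of_mem_closure hh
  have h1 : ∀ᶠ n in atTop, ∀ k l, |u n k l - h k l| < ε := by
    refine Filter.eventually_all.2 fun k => Filter.eventually_all.2 fun l => ?_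
    have h2 : Tendsto (fun n => u n k l) atTop (𝓝 (h k l)) :=
      ((continuous_apply_apply k l).tendsto h).comp hlim
    have h3 := h2.sub_const (h k l)
    rw [sub_self] at h3
    have h4 := h3.abs
    rw [abs_zero] at h4
    exact h4.eventually (gt_mem_nhds hε)
  obtain ⟨n, hn⟩ := h1.exists
  obtain ⟨a, γ, ha0, ha, hγ, hun⟩ := hu n
  refine ⟨a, γ, ha0, ha, hγ, fun k l => ?_⟩
  have := hn k l
  rw [hun] at this
  exact this

end Pool.Agent.W241.Lac
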